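import Pool.Agent.TH943.TP.Eig

/-!
The double coverings `v ^ 2 = f(x_n) ^ c ∏ (x_i - h_i(x_(i-1))) ^ b_i`: simple eigenvalues and their
reductions.
-/

set_option autoImplicit false
set_option maxHeartbeats 1000000

open Finset Polynomial

namespace Pool.Agent.TH943.TP

open Pool.Agent.W528.HS Pool.Agent.W528.HA Pool.Agent.TH117.HS Pool.Agent.TH943.IP
  Pool.Agent.TH943.SP

/-- injectivity of the reduction -/
theorem inj_of_prod {O k : Type} [CommRing O] [Field k] (θ : O →+* k) {A' : Multiset O}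
    {H : k[X]} (hH : Squarefree H) (h : (A'.map fun x => 1 - C (θ x) * X).prod = H) {x y : O}
    (hx : x ∈ A') (hy : y ∈ A') (hθ : θ x ≠ 0) (hxy : θ x = θ y) : x = y := by
  classical
  by_contra hne
  obtain ⟨A1, hA1⟩ := Multiset.exists_cons_of_mem hx
  have hy1 : y ∈ A1 := by
    rw [hA1, Multiset.mem_cons] at hy
    exact hy.resolve_left fun h0 => hne h0.symm
  obtain ⟨A2, hA2⟩ := Multiset.exists_cons_of_mem hy1
  rw [hA1, hA2, Multiset.map_cons, Multiset.map_cons, Multiset.prod_cons, Multiset.prod_cons,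
    ← hxy, ← mul_assoc] at h
  have hunit := hH (1 - C (θ x) * X) ⟨_, h.symm⟩
  have h2 : (1 - C (θ x) * X : k[X]).natDegree = 1 := by
    rw [sub_eq_add_neg, ← neg_mul, ← C_neg, ← C_1, add_comm]
    exact natDegree_linear (neg_ne_zero.mpr hθ)
  rw [Polynomial.isUnit_iff] at hunit
  obtain ⟨r, _, hr⟩ := hunit
  rw [← hr, natDegree_C] at h2
  exact zero_ne_one h2

/-- the number of points of the double covering -/
theorem ncard_double {L X : Type} [Field L] [Fintype L] [Finite X] (h2 : (2 : L) ≠ 0) (G : X → L) :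
    Set.ncard {y : X × L | G y.1 ≠ 0 ∧ y.2 ^ 2 = G y.1} =
      2 * Set.ncard {x : X | G x ≠ 0 ∧ G x ^ ((Fintype.card L - 1) / 2) = 1} := by
  classical
  have := Fintype.ofFinite X
  have hchar : ringChar L ≠ 2 := by
    intro h0
    apply h2
    have : ((ringChar L : ℕ) : L) = 0 := ringChar.Nat.cast_ringChar
    rw [h0] at this
    exact_mod_cast this
  have hodd : Fintype.card L % 2 = 1 := FiniteField.odd_card_of_char_ne_two hchar
  have hc : (Fintype.card L - 1) / 2 = Fintype.card L / 2 := by omega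
  have key : ∀ x : X, (Finset.univ.filter fun v : L => G x ≠ 0 ∧ v ^ 2 = G x).card =
      if G x ≠ 0 ∧ G x ^ ((Fintype.card L - 1) / 2) = 1 then 2 else 0 := by
    intro x
    by_cases h0 : G x = 0
    · rw [if_neg (fun h => h.1 h0), Finset.card_eq_zero, Finset.filter_eq_empty_iff]
      exact fun v _ h => h.1 h0
    · have h3 := quadraticChar_card_sqrts hchar (G x)
      have h4 : (Finset.univ.filter fun v : L => G x ≠ 0 ∧ v ^ 2 = G x) =
          {v : L | v ^ 2 = G x}.toFinset := by
        ext v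
        simp [h0]
      rw [h4]
      have h5 : (({v : L | v ^ 2 = G x}.toFinset.card : ℕ) : ℤ) =
          ((if G x ≠ 0 ∧ G x ^ ((Fintype.card L - 1) / 2) = 1 then 2 else 0 : ℕ) : ℤ) := by
        rw [h3, quadraticChar_eq_pow_of_char_ne_two hchar h0, hc]
        by_cases h6 : G x ^ (Fintype.card L / 2) = 1
        · rw [if_pos h6, if_pos ⟨h0, h6⟩]
          norm_num
        · rw [if_neg h6, if_neg (fun h => h6 h.2)]
          norm_num
      exact_mod_cast h5
  have h1 : Set.ncard {y : X × L | G y.1 ≠ 0 ∧ y.2 ^ 2 = G y.1} =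
      ∑ x : X, (Finset.univ.filter fun v : L => G x ≠ 0 ∧ v ^ 2 = G x).card := by
    have e1 : {y : X × L | G y.1 ≠ 0 ∧ y.2 ^ 2 = G y.1}.toFinset =
        Finset.univ.filter fun y : X × L => G y.1 ≠ 0 ∧ y.2 ^ 2 = G y.1 := by
      ext y
      simp
    rw [Set.ncard_eq_toFinset_card', e1, Finset.card_filter, Fintype.sum_prod_type]
    exact Finset.sum_congr rfl fun x _ => (Finset.card_filter _ _).symm
  rw [h1, Finset.sum_congr rfl fun x _ => key x, ← Finset.sum_filter, Finset.sum_const,
    smul_eq_mul, mul_comm]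
  congr 1
  rw [Set.ncard_eq_toFinset_card']
  congr 1
  ext x
  simp

/-- the values of the character -/
theorem ncard_split {L X : Type} [Field L] [Fintype L] [Finite X] (h2 : (2 : L) ≠ 0) (G : X → L) :
    Set.ncard {x : X | G x ≠ 0 ∧ G x ^ ((Fintype.card L - 1) / 2) = 1} +
      Set.ncard {x : X | G x ≠ 0 ∧ G x ^ ((Fintype.card L - 1) / 2) = -1} =
      Set.ncard {x : X | G x ≠ 0} := by
  classical
  have hchar : ringChar L ≠ 2 := by
    intro h0
    apply h2
    have : ((ringChar L : ℕ) : L) = 0 := ringChar.Nat.cast_ringChar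
    rw [h0] at this
    exact_mod_cast this
  have hodd : Fintype.card L % 2 = 1 := FiniteField.odd_card_of_char_ne_two hchar
  have hc : (Fintype.card L - 1) / 2 = Fintype.card L / 2 := by omega
  rw [← Set.ncard_union_eq]
  · congr 1
    ext x
    simp only [Set.mem_union, Set.mem_ofPred_eq]
    constructor
    · rintro (h | h)
      · exact h.1
      · exact h.1
    · intro h
      rcases FiniteField.pow_dichotomy hchar h with h3 | h3
      · left
        rw [hc]
        exact ⟨h, h3⟩
      · right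
        rw [hc]
        exact ⟨h, h3⟩
  · rw [Set.disjoint_left]
    rintro x ⟨-, h3⟩ ⟨-, h4⟩
    rw [h3] at h4
    apply h2
    have : (1 : L) + 1 = 0 := by
      nth_rw 1 [h4]
      ring
    rw [← this]
    norm_num

/-- Frobenius on the middle cohomology of the double coverings: the characteristic polynomial is
separable, and the reductions of the eigenvalues are different roots of unity. -/
theorem double_main (κ : Type) [Field κ] [Fintype κ] (h2 : (2 : κ) ≠ 0)
    {r : ℕ} (h : Fin (r + 1) → κ[X]) (f : κ[X])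
    {b : Fin (r + 1) → ℕ} {c : ℕ} (hb : ∀ i, b i ≠ 0) (hc : c ≠ 0)
    (hirr : Irreducible (cmp (r + 1) h f)) (hdeg : ¬ 2 ∣ (cmp (r + 1) h f).natDegree)
    {E : Type} [Field E] [CharZero E] [IsAlgClosed E]
    {W : Type} [AddCommGroup W] [Module E W] [FiniteDimensional E W] (Φ : Module.End E W)
    (htr : ∀ (L : Type) [Field L] [Fintype L] [Algebra κ L],
      (-1) ^ (r + 2) * LinearMap.trace E W (Φ ^ Module.finrank κ L) =
        (Set.ncard {y : (Fin (r + 2) → L) × L | GG L h f b c y.1 ≠ 0 ∧
          y.2 ^ 2 = GG L h f b c y.1} : E) -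
          (Set.ncard {x : Fin (r + 2) → L | GG L h f b c x ≠ 0} : E))
    (hdim : Module.finrank E W + (cmp r (fun i => h i.succ) f).natDegree =
      (cmp (r + 1) h f).natDegree) :
    Φ.charpoly.Separable ∧ Φ.IsSemisimple ∧
      ∀ (k : Type) [Field k] [CharP k 2] (θ : (integralClosure ℤ E).toSubring →+* k),
        (∀ (α : E) (w : W), w ≠ 0 → Φ w = α • w → ∃ x : (integralClosure ℤ E).toSubring,
          (x : E) = α ∧ θ x ^ (cmp (r + 1) h f).natDegree = 1 ∧
          θ x ^ (cmp r (fun i => h i.succ) f).natDegree ≠ 1) ∧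
        (∀ (x y : (integralClosure ℤ E).toSubring) (v w : W), v ≠ 0 → w ≠ 0 →
          Φ v = (x : E) • v → Φ w = (y : E) • w → θ x = θ y → x = y) := by
  classical
  have hp : Nat.Prime 2 := Nat.prime_two
  have hz : IsPrimitiveRoot (-1 : κ) (2 ^ 1) := by
    rw [pow_one]
    refine IsPrimitiveRoot.mk_of_lt (-1 : κ) (by norm_num) (by norm_num) ?_
    intro l hl1 hl2
    have : l = 1 := by omega
    rw [this, pow_one]
    intro h0
    apply h2
    have : (1 : κ) + 1 = 0 := by
      nth_rw 1 [← h0]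
      ring
    rw [← this]
    norm_num
  have hμ : IsPrimitiveRoot (-1 : E) (2 ^ 1) := by
    rw [pow_one]
    refine IsPrimitiveRoot.mk_of_lt (-1 : E) (by norm_num) (by norm_num) ?_
    intro l hl1 hl2
    have : l = 1 := by omega
    rw [this, pow_one]
    norm_num
  obtain ⟨P₁, P₂, B₁, B₂, S, h1, h2', h3, h4, h5, h6, h7, h8, h9, h10, h11⟩ :=
    inputs_const hp le_rfl κ hz h f hb hc hirr hdeg E
  have hdim' : S.natDegree = Module.finrank E W := by omega
  have hL2 : ∀ (L : Type) [Field L] [Algebra κ L], (2 : L) ≠ 0 := by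
    intro L _ _ h0
    apply h2
    apply (algebraMap κ L).injective
    rw [map_zero, map_ofNat]
    exact h0
  have hΦ : ∀ (L : Type) [Field L] [Fintype L] [Algebra κ L],
      (-1) ^ (r + 2) * LinearMap.trace E W (Φ ^ Module.finrank κ L)
        = projSum L E (2 ^ 1) ((FF h f b c).map (algebraMap κ L)) (algebraMap κ L (-1)) (-1) := by
    intro L _ _ _
    have hzL : IsPrimitiveRoot (algebraMap κ L (-1)) (2 ^ 1) :=
      hz.map_of_injective (algebraMap κ L).injective
    rw [← sum_projFix (E := E) (pow_pos hp.pos 1) ((FF h f b c).map (algebraMap κ L)) hzL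
      hμ.pow_eq_one, htr L, ncard_double (hL2 L)]
    have e1 : ∀ i, projFix L (2 ^ 1) ((FF h f b c).map (algebraMap κ L)) (algebraMap κ L (-1)) i =
        Set.ncard {x : Fin (r + 2) → L | GG L h f b c x ≠ 0 ∧
            (GG L h f b c x) ^ ((Fintype.card L - 1) / 2 ^ 1) = algebraMap κ L (-1) ^ i} :=
      fun i => ncard_points h f
        (fun y => y ^ ((Fintype.card L - 1) / 2 ^ 1) = algebraMap κ L (-1) ^ i)
    have e2 := ncard_split (hL2 L) (fun x : Fin (r + 2) → L => GG L h f b c x)
    rw [pow_one] at e1 ⊢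
    rw [Finset.sum_range_succ, Finset.sum_range_one, e1, e1, ← e2]
    simp only [map_neg, map_one, pow_zero, pow_one, one_mul]
    push_cast
    ring
  obtain ⟨hsep, hss⟩ := semisimple_gen Pool.Agent.W715.HS.OC.main Pool.Agent.W326.HS.EI.main
    Pool.Agent.W111.HS.EC.main Pool.Agent.W63.HS.TR.main Pool.Agent.W804.HS.RD.main hp κ hz
    (n := r + 2) (FF h f b c) hμ P₁ P₂ h1 h2' B₁ B₂ h3 h4 h5 Φ hΦ S h7 hdim' h10 h11
  refine ⟨hsep, hss, ?_⟩
  intro k _ _ θ
  obtain ⟨A', B₁', B₂', hA', hB₁', hB₂', g1, g2⟩ := congr_of hp κ hz (n := r + 2) (FF h f b c)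
    hμ B₁ B₂ (integral_of_poly h1 h3) (integral_of_poly h2' h4) h5 Φ hΦ k θ
  rw [red_prod h3 hB₁' θ, red_prod h4 hB₂' θ] at g1 g2
  let ι : ZMod 2 →+* k := ZMod.castHom (dvd_refl 2) k
  have hι : ∀ P : ℤ[X], (P.map (Int.castRingHom (ZMod 2))).map ι = P.map (Int.castRingHom k) := by
    intro P
    rw [Polynomial.map_map]
    congr 1
    exact RingHom.ext_int _ _
  have hne : ∀ P : ℤ[X], P.coeff 0 = 1 → P.map (Int.castRingHom k) ≠ 0 := by
    intro P hP h
    have h3 := congrArg (fun Q => Polynomial.coeff Q 0) h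
    simp only [coeff_map, hP, coeff_zero, map_one] at h3
    exact one_ne_zero h3
  have hprod : (A'.map fun x => 1 - C (θ x) * X).prod = S.map ι := by
    rcases Nat.even_or_odd (r + 2) with hn | hn
    · have h3 := congrArg (Polynomial.map ι) (h10 hn)
      rw [Polynomial.map_mul, hι, hι] at h3
      exact mul_right_cancel₀ (hne P₂ h2') ((g1 hn).trans h3.symm)
    · have h3 := congrArg (Polynomial.map ι) (h11 hn)
      rw [Polynomial.map_mul, hι, hι] at h3
      exact mul_right_cancel₀ (hne P₁ h1) ((g2 hn).trans h3.symm)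
  have hsq : Squarefree (S.map ι) :=
    ((PerfectField.separable_iff_squarefree.mpr h7).map (f := ι)).squarefree
  have hcard : Φ.charpoly.roots.card = Module.finrank E W := by
    rw [← (IsAlgClosed.splits Φ.charpoly).natDegree_eq_card_roots, LinearMap.charpoly_natDegree]
  have hcA : A'.card = Module.finrank E W := by
    rw [← hcard, ← hA', Multiset.card_map]
  have hdegS : (S.map ι).natDegree = A'.card := by rw [natDegree_map, hdim', hcA]
  have hmem : ∀ (α : E) (w : W), w ≠ 0 → Φ w = α • w → ∃ x ∈ A', (x : E) = α := by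
    intro α w hw hα
    have hmem : α ∈ Φ.charpoly.roots := by
      rw [mem_roots (LinearMap.charpoly_monic Φ).ne_zero,
        ← Module.End.hasEigenvalue_iff_isRoot_charpoly]
      exact Module.End.hasEigenvalue_of_hasEigenvector
        (Module.End.hasEigenvector_iff.2 ⟨Module.End.mem_eigenspace_iff.2 hα, hw⟩)
    rw [← hA', Multiset.mem_map] at hmem
    exact hmem
  refine ⟨?_, ?_⟩
  · intro α w hw hα
    obtain ⟨x, hx, hxα⟩ := hmem α w hw hα
    obtain ⟨g5, g6⟩ := root_of_prod θ hdegS hprod hx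
    refine ⟨x, hxα, ?_, ?_⟩
    · have h12 := congrArg (Polynomial.map ι) h6
      have h13 := congrArg (Polynomial.eval (θ x)⁻¹) h12
      rw [Polynomial.map_mul, eval_mul, g6, mul_zero, Polynomial.map_sub, Polynomial.map_one,
        Polynomial.map_pow, map_X, eval_sub, eval_one, eval_pow, eval_X, inv_pow] at h13
      exact inv_eq_one.1 (sub_eq_zero.1 h13).symm
    · intro h0
      have hfact : Fact (Nat.Prime 2) := ⟨hp⟩
      have hcop : IsCoprime (1 - X ^ (cmp r (fun i => h i.succ) f).natDegree : (ZMod 2)[X]) S :=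
        h8.isCoprime
      obtain ⟨a₁, a₂, ha⟩ := hcop.map (Polynomial.mapRingHom ι)
      have h13 := congrArg (Polynomial.eval (θ x)⁻¹) ha
      rw [coe_mapRingHom, eval_add, eval_mul, eval_mul, g6, Polynomial.map_sub,
        Polynomial.map_one, Polynomial.map_pow, map_X, eval_sub, eval_one, eval_pow, eval_X,
        inv_pow, h0, inv_one, sub_self, mul_zero, mul_zero, add_zero] at h13
      exact zero_ne_one h13
  · intro x y v w hv hw hvx hwy hxy
    obtain ⟨x', hx', hxx⟩ := hmem _ v hv hvx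
    obtain ⟨y', hy', hyy⟩ := hmem _ w hw hwy
    obtain rfl : x' = x := Subtype.ext hxx
    obtain rfl : y' = y := Subtype.ext hyy
    obtain ⟨g5, -⟩ := root_of_prod θ hdegS hprod hx'
    exact inj_of_prod θ hsq hprod hx' hy' g5 hxy

end Pool.Agent.TH943.TP
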