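import Pool.Agent.TH943.TP.Red

/-!
The eigenvalues of Frobenius on the part of the nontrivial characters of the cohomology of the
coverings `v ^ (p ^ s) = f(x_n) ^ c ∏ (x_i - h_i(x_(i-1))) ^ b_i`.
-/

set_option autoImplicit false
set_option maxHeartbeats 1000000

open Finset Polynomial

namespace Pool.Agent.TH943.TP

open Pool.Agent.W528.HS Pool.Agent.W528.HA Pool.Agent.TH117.HS Pool.Agent.TH943.IP
  Pool.Agent.TH943.SP

/-- traces on the eigenspaces of `g` -/
theorem trace_char {p s : ℕ} (hp : p.Prime) (κ : Type) [Field κ] [Fintype κ] {z : κ}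
    (hz : IsPrimitiveRoot z (p ^ s)) {n : ℕ}
    (F : MvPolynomial (Fin (n + 1)) κ) {E : Type} [Field E] [CharZero E] [IsAlgClosed E]
    {V : Type} [AddCommGroup V] [Module E V] [FiniteDimensional E V] (Φ g : Module.End E V)
    (hc : Commute Φ g) (hg : g ^ p ^ s = 1)
    (hfix : ∀ (L : Type) [Field L] [Fintype L] [Algebra κ L] (i : ℕ),
      (-1) ^ n * LinearMap.trace E V (Φ ^ Module.finrank κ L * g ^ i) =
          (p : E) ^ s * projFix L (p ^ s) (F.map (algebraMap κ L)) (algebraMap κ L z) i -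
            (projOpen L (F.map (algebraMap κ L)) : E))
    {ω : E} (hω1 : ω ≠ 1) (hω : ω ^ p ^ s = 1)
    (L : Type) [Field L] [Fintype L] [Algebra κ L] :
    (-1) ^ n * LinearMap.trace E _ ((Φ.restrict (mapsTo_eig hc ω)) ^ Module.finrank κ L) =
      projSum L E (p ^ s) (F.map (algebraMap κ L)) (algebraMap κ L z) ω⁻¹ := by
  classical
  have hN : 0 < p ^ s := pow_pos hp.pos s
  have hω' : (ω⁻¹) ^ p ^ s = 1 := by rw [inv_pow, hω, inv_one]
  have hω1' : ω⁻¹ ≠ 1 := fun h => hω1 (inv_eq_one.1 h)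
  have hzL : IsPrimitiveRoot (algebraMap κ L z) (p ^ s) :=
    hz.map_of_injective (algebraMap κ L).injective
  have h1 := trace_eig hc hN hg hω (Module.finrank κ L)
  have h0 : ∑ i ∈ range (p ^ s), (ω⁻¹) ^ i = 0 := by
    have h2 := mul_geom_sum (ω⁻¹) (p ^ s)
    rw [hω', sub_self] at h2
    exact (mul_eq_zero.1 h2).resolve_left (sub_ne_zero.2 hω1')
  have hps : ((p ^ s : ℕ) : E) ≠ 0 := by exact_mod_cast hN.ne'
  apply mul_left_cancel₀ hps
  calc ((p ^ s : ℕ) : E) * ((-1) ^ n *
        LinearMap.trace E _ ((Φ.restrict (mapsTo_eig hc ω)) ^ Module.finrank κ L))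
      = ∑ i ∈ range (p ^ s), (ω⁻¹) ^ i * ((-1) ^ n *
          LinearMap.trace E V (Φ ^ Module.finrank κ L * g ^ i)) := by
        rw [mul_left_comm, h1, Finset.mul_sum]
        exact Finset.sum_congr rfl fun i _ => by ring
    _ = ∑ i ∈ range (p ^ s), ((ω⁻¹) ^ i * (-(projOpen L (F.map (algebraMap κ L)) : E)) +
        (p : E) ^ s * ((ω⁻¹) ^ i *
          projFix L (p ^ s) (F.map (algebraMap κ L)) (algebraMap κ L z) i)) :=
        Finset.sum_congr rfl fun i _ => by rw [hfix]; ring
    _ = _ := by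
        rw [Finset.sum_add_distrib, ← Finset.sum_mul, h0, zero_mul, zero_add, ← Finset.mul_sum,
          sum_projFix hN _ hzL hω']
        push_cast
        ring

/-- all the input for the general theorem -/
theorem inputs_const {p s : ℕ} (hp : p.Prime) (hs : 1 ≤ s) (κ : Type) [Field κ] [Fintype κ] {z : κ}
    (hz : IsPrimitiveRoot z (p ^ s)) {r : ℕ} (h : Fin (r + 1) → κ[X]) (f : κ[X])
    {b : Fin (r + 1) → ℕ} {c : ℕ} (hb : ∀ i, b i ≠ 0) (hc : c ≠ 0)
    (hirr : Irreducible (cmp (r + 1) h f)) (hdeg : ¬ p ∣ (cmp (r + 1) h f).natDegree)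
    (E : Type) [Field E] [CharZero E] [IsAlgClosed E] :
    ∃ (P₁ P₂ : ℤ[X]) (B₁ B₂ : Multiset E) (S : (ZMod p)[X]), P₁.coeff 0 = 1 ∧ P₂.coeff 0 = 1 ∧
      P₁.map (Int.castRingHom E) = (B₁.map fun x => 1 - C x * X).prod ∧
      P₂.map (Int.castRingHom E) = (B₂.map fun x => 1 - C x * X).prod ∧
      (∀ (L : Type) [Field L] [Fintype L] [Algebra κ L],
        (projOpen L ((FF h f b c).map (algebraMap κ L)) : E) =
          (B₁.map fun x => x ^ Module.finrank κ L).sum -
            (B₂.map fun x => x ^ Module.finrank κ L).sum) ∧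
      (1 - X ^ (cmp (r + 1) h f).natDegree : (ZMod p)[X]) =
        (1 - X ^ (cmp r (fun i => h i.succ) f).natDegree) * S ∧
      Squarefree S ∧ IsRelPrime (1 - X ^ (cmp r (fun i => h i.succ) f).natDegree) S ∧
      S.natDegree + (cmp r (fun i => h i.succ) f).natDegree = (cmp (r + 1) h f).natDegree ∧
      (Even (r + 2) → S * P₂.map (Int.castRingHom (ZMod p)) =
        P₁.map (Int.castRingHom (ZMod p))) ∧
      (Odd (r + 2) → S * P₁.map (Int.castRingHom (ZMod p)) =
        P₂.map (Int.castRingHom (ZMod p))) := by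
  have hfact : Fact p.Prime := ⟨hp⟩
  have hq : ((Fintype.card κ : ℕ) : ZMod p) = 1 := card_eq_one hp hs hz (ZMod p)
  have hirr1 : Irreducible (cmp r (fun i => h i.succ) f) := by
    rw [cmp_succ] at hirr
    exact irreducible_of_comp hirr
  set K := (cmp r (fun i => h i.succ) f).natDegree with hK
  have hKpos : 0 < K := hirr1.natDegree_pos
  have hKm : (cmp (r + 1) h f).natDegree = K * (h 0).natDegree := by
    rw [cmp_succ, natDegree_comp]
  set m := (h 0).natDegree with hm
  have hmpos : 0 < m := by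
    rcases Nat.eq_zero_or_pos m with h0 | h0
    · rw [hKm, h0, mul_zero] at hdeg
      exact absurd (dvd_zero p) hdeg
    · exact h0
  obtain ⟨P₁, P₂, B₁, B₂, h1, h2, h3, h4, h5, h6⟩ := rep_total (E := E) hq r h f hirr
  rw [hKm] at hdeg
  obtain ⟨S, g1, g2, g3, g4⟩ := exists_S hKpos hmpos hdeg
  refine ⟨P₁, P₂, B₁, B₂, S, h1, h2, h3, h4, ?_, ?_, g2, g3, ?_, ?_, ?_⟩
  · intro L _ _ _
    have : FiniteDimensional κ L := Module.Finite.of_finite
    have h7 : (projOpen L ((FF h f b c).map (algebraMap κ L)) : ℤ) =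
        (Fintype.card κ : ℤ) ^ Module.finrank κ L *
          cs (Fintype.card κ) (r + 1) h f (Module.finrank κ L) +
        (-1) ^ (r + 2) * NN (cmp (r + 1) h f).natDegree (Module.finrank κ L) := by
      rw [projOpen_eq h f hb hc, total_eq, cc_eq L _ h f hirr, sum_delta L hirr]
      have h8 : (Fintype.card L : ℤ) = (Fintype.card κ : ℤ) ^ Module.finrank κ L := by
        rw [Module.card_eq_pow_finrank (K := κ) (V := L)]
        push_cast
        rfl
      rw [h8]
    rw [← Int.cast_natCast, h7]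
    exact h5 _ Module.finrank_pos
  · rw [hKm]
    exact g1
  · rw [hKm]
    exact g4
  · intro hev
    rw [← hK, hKm] at h6
    have hr : Even r := by
      rw [Nat.even_add] at hev
      exact hev.2 even_two
    have e1 : ¬ Even (r + 1) := by rw [Nat.even_add_one]; exact not_not.2 hr
    have e2 : Even (r + 2) := hev
    have e3 : ¬ Even (r + 3) := by
      rw [show r + 3 = r + 2 + 1 from rfl, Nat.even_add_one]; exact not_not.2 hev
    unfold sg at h6
    rw [if_neg e1, if_pos e2, if_pos e2, if_neg e3, one_mul, mul_one, g1] at h6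
    apply mul_right_cancel₀ (one_sub_ne hKpos)
    rw [h6]
    ring
  · intro hodd
    rw [← hK, hKm] at h6
    have hr : Odd r := by
      rw [Nat.odd_add] at hodd
      exact hodd.2 even_two
    have e1 : Even (r + 1) := hr.add_one
    have e2 : ¬ Even (r + 2) := Nat.not_even_iff_odd.2 hodd
    have e3 : Even (r + 3) := hodd.add_one
    unfold sg at h6
    rw [if_pos e1, if_neg e2, if_neg e2, if_pos e3, one_mul, mul_one, g1] at h6
    apply mul_right_cancel₀ (one_sub_ne hKpos)
    rw [← h6]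
    ring

/-- Frobenius is semisimple, and the reductions of its eigenvalues are roots of unity of order
dividing the degree of the whole composition, but not dividing the degree of the composition
without the first polynomial. -/
theorem eig_main {p s : ℕ} (hp : p.Prime) (hs : 1 ≤ s) (κ : Type) [Field κ] [Fintype κ] {z : κ}
    (hz : IsPrimitiveRoot z (p ^ s)) {r : ℕ} (h : Fin (r + 1) → κ[X]) (f : κ[X])
    {b : Fin (r + 1) → ℕ} {c : ℕ} (hb : ∀ i, b i ≠ 0) (hc : c ≠ 0)
    (hirr : Irreducible (cmp (r + 1) h f)) (hdeg : ¬ p ∣ (cmp (r + 1) h f).natDegree)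
    {E : Type} [Field E] [CharZero E] [IsAlgClosed E]
    {V : Type} [AddCommGroup V] [Module E V] [FiniteDimensional E V] (Φ g : Module.End E V)
    (hcomm : Commute Φ g) (hg : g ^ p ^ s = 1) (hinv : ∀ v, g v = v → v = 0)
    (hfix : ∀ (L : Type) [Field L] [Fintype L] [Algebra κ L] (i : ℕ),
      (-1) ^ (r + 2) * LinearMap.trace E V (Φ ^ Module.finrank κ L * g ^ i) =
        (p : E) ^ s * (Set.ncard {x : Fin (r + 2) → L | GG L h f b c x ≠ 0 ∧
            (GG L h f b c x) ^ ((Fintype.card L - 1) / p ^ s) = algebraMap κ L z ^ i} : E) -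
          (Set.ncard {x : Fin (r + 2) → L | GG L h f b c x ≠ 0} : E))
    (hdim : ∀ ω : E, ω ≠ 1 → ω ^ p ^ s = 1 → Module.finrank E (g.eigenspace ω) +
      (cmp r (fun i => h i.succ) f).natDegree = (cmp (r + 1) h f).natDegree) :
    Φ.IsSemisimple ∧
      ∀ (k : Type) [Field k] [CharP k p] (θ : (integralClosure ℤ E).toSubring →+* k) (α : E)
        (w : V), w ≠ 0 → Φ w = α • w → ∃ x : (integralClosure ℤ E).toSubring, (x : E) = α ∧
          θ x ^ (cmp (r + 1) h f).natDegree = 1 ∧
          θ x ^ (cmp r (fun i => h i.succ) f).natDegree ≠ 1 := by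
  classical
  have hfact : Fact p.Prime := ⟨hp⟩
  have hN : 0 < p ^ s := pow_pos hp.pos s
  obtain ⟨P₁, P₂, B₁, B₂, S, h1, h2, h3, h4, h5, h6, h7, h8, h9, h10, h11⟩ :=
    inputs_const hp hs κ hz h f hb hc hirr hdeg E
  have hfix' : ∀ (L : Type) [Field L] [Fintype L] [Algebra κ L] (i : ℕ),
      (-1) ^ (r + 2) * LinearMap.trace E V (Φ ^ Module.finrank κ L * g ^ i) =
          (p : E) ^ s * projFix L (p ^ s) ((FF h f b c).map (algebraMap κ L))
            (algebraMap κ L z) i - (projOpen L ((FF h f b c).map (algebraMap κ L)) : E) := by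
    intro L _ _ _ i
    refine (hfix L i).trans ?_
    have e1 : projFix L (p ^ s) ((FF h f b c).map (algebraMap κ L)) (algebraMap κ L z) i =
        Set.ncard {x : Fin (r + 2) → L | GG L h f b c x ≠ 0 ∧
            (GG L h f b c x) ^ ((Fintype.card L - 1) / p ^ s) = algebraMap κ L z ^ i} :=
      ncard_points h f (fun y => y ^ ((Fintype.card L - 1) / p ^ s) = algebraMap κ L z ^ i)
    have e2 : projOpen L ((FF h f b c).map (algebraMap κ L)) =
        Set.ncard {x : Fin (r + 2) → L | GG L h f b c x ≠ 0} := by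
      have := ncard_points (L := L) h f (b := b) (c := c) (fun _ => True)
      simp only [and_true] at this
      exact this
    rw [e1, e2]
  have hdim' : ∀ ω : E, ω ≠ 1 → ω ^ p ^ s = 1 →
      S.natDegree = Module.finrank E (g.eigenspace ω) := by
    intro ω hω1 hω
    have := hdim ω hω1 hω
    omega
  refine ⟨open_whole hp κ hz (n := r + 2) (FF h f b c) P₁ P₂ h1 h2 B₁ B₂ h3 h4 h5 Φ g
    hcomm hg hinv hfix' S h7 hdim' h10 h11, ?_⟩
  intro k _ _ θ α w hw hα
  -- an eigenvector of `g`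
  have hmap : ∀ v ∈ Φ.eigenspace α, g v ∈ Φ.eigenspace α := by
    intro v hv
    rw [Module.End.mem_eigenspace_iff] at hv ⊢
    have h12 : Φ (g v) = g (Φ v) := by
      rw [← Module.End.mul_apply, hcomm.eq, Module.End.mul_apply]
    rw [h12, hv, map_smul]
  have hnt : Nontrivial (Φ.eigenspace α) :=
    ⟨⟨⟨w, Module.End.mem_eigenspace_iff.2 hα⟩, 0, fun h0 => hw (congrArg Subtype.val h0)⟩⟩
  obtain ⟨ω, hω⟩ := Module.End.exists_eigenvalue (g.restrict hmap)
  obtain ⟨w', hw'⟩ := hω.exists_hasEigenvector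
  have hgw : g w'.1 = ω • w'.1 := congrArg Subtype.val hw'.apply_eq_smul
  have hw0 : w'.1 ≠ 0 := fun h0 => hw'.2 (Subtype.ext h0)
  have hω1 : ω ≠ 1 := by
    intro h0
    rw [h0, one_smul] at hgw
    exact hw0 (hinv _ hgw)
  have hωN : ω ^ p ^ s = 1 := by
    have h12 : ∀ j : ℕ, (g ^ j) w'.1 = ω ^ j • w'.1 := by
      intro j
      induction j with
      | zero => rw [pow_zero, pow_zero, one_smul, Module.End.one_apply]
      | succ j ih => rw [pow_succ', Module.End.mul_apply, ih, map_smul, hgw, smul_smul, ← pow_succ]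
    have h13 := h12 (p ^ s)
    rw [hg, Module.End.one_apply] at h13
    by_contra h14
    have h15 : (ω ^ p ^ s - 1) • w'.1 = 0 := by
      rw [sub_smul, one_smul, ← h13, sub_self]
    rcases smul_eq_zero.1 h15 with h16 | h16
    · exact h14 (sub_eq_zero.1 h16)
    · exact hw0 h16
  have hωi : (ω⁻¹) ^ p ^ s = 1 := by rw [inv_pow, hωN, inv_one]
  have hω1i : ω⁻¹ ≠ 1 := fun h => hω1 (inv_eq_one.1 h)
  have hmem : w'.1 ∈ g.eigenspace ω := Module.End.mem_eigenspace_iff.2 hgw
  obtain ⟨x, hx1, hx2, hx3⟩ := eig_char hp κ hz (n := r + 2) (FF h f b c) hω1i hωi P₁ P₂ h1 h2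
    B₁ B₂ h3 h4 h5 (Φ.restrict (mapsTo_eig hcomm ω)) (fun L _ _ _ =>
      trace_char hp κ hz (n := r + 2) (FF h f b c) Φ g hcomm hg hfix' hω1 hωN L) S
    (hdim' ω hω1 hωN) h10 h11 k θ (α := α) (w := ⟨w'.1, hmem⟩)
    (fun h0 => hw0 (congrArg Subtype.val h0))
    (Subtype.ext (Module.End.mem_eigenspace_iff.1 w'.2))
  refine ⟨x, hx1, ?_, ?_⟩
  · have h12 := congrArg (Polynomial.map (ZMod.castHom (dvd_refl p) k)) h6
    have h13 := congrArg (Polynomial.eval (θ x)⁻¹) h12
    rw [Polynomial.map_mul, eval_mul, hx3, mul_zero, Polynomial.map_sub, Polynomial.map_one,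
      Polynomial.map_pow, map_X, eval_sub, eval_one, eval_pow, eval_X, inv_pow] at h13
    exact inv_eq_one.1 (sub_eq_zero.1 h13).symm
  · intro h0
    have hcop : IsCoprime (1 - X ^ (cmp r (fun i => h i.succ) f).natDegree : (ZMod p)[X]) S :=
      h8.isCoprime
    obtain ⟨a₁, a₂, ha⟩ := hcop.map (Polynomial.mapRingHom (ZMod.castHom (dvd_refl p) k))
    have h13 := congrArg (Polynomial.eval (θ x)⁻¹) ha
    rw [coe_mapRingHom, eval_add, eval_mul, eval_mul, hx3, Polynomial.map_sub, Polynomial.map_one,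
      Polynomial.map_pow, map_X, eval_sub, eval_one, eval_pow, eval_X, inv_pow, h0, inv_one,
      sub_self, mul_zero, mul_zero, add_zero] at h13
    exact zero_ne_one h13

end Pool.Agent.TH943.TP
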