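import Pool.Agent.TH943.TP.Lin

/-!
Graph classes: for an endomorphism with simple eigenvalues which is a similitude of a perfect pairing,
the tensors of eigenvectors with the right product of eigenvalues are combinations of the classes
of the powers of the endomorphism.
-/

set_option autoImplicit false
set_option maxHeartbeats 1000000

open Finset Polynomial TensorProduct

namespace Pool.Agent.TH943.TP

section pairing

variable {E W : Type} [Field E] [AddCommGroup W] [Module E W]

/-- the pairing of a tensor with `x ⊗ y` -/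
noncomputable def pr (B : W →ₗ[E] W →ₗ[E] E) (x y : W) : W ⊗[E] W →ₗ[E] E :=
  LinearMap.mul' E E ∘ₗ TensorProduct.map (B.flip x) (B.flip y)

theorem pr_tmul (B : W →ₗ[E] W →ₗ[E] E) (x y u v : W) :
    pr B x y (u ⊗ₜ[E] v) = B u x * B v y := rfl

theorem pr_zero (B : W →ₗ[E] W →ₗ[E] E) [FiniteDimensional E W]
    (hB : ∀ v, (∀ x, B v x = 0) → v = 0) (τ : W ⊗[E] W) (h : ∀ x y, pr B x y τ = 0) : τ = 0 := by
  classical
  set b := Module.finBasis E W
  obtain ⟨c, rfl⟩ := TensorProduct.eq_repr_basis_right b τ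
  have h1 : ∀ i x, B (c i) x = 0 := by
    intro i x
    have h2 : ∑ i ∈ c.support, B (c i) x • b i = 0 := by
      apply hB
      intro y
      have h3 := h x y
      rw [Finsupp.sum, map_sum] at h3
      rw [map_sum, LinearMap.sum_apply]
      refine Eq.trans (Finset.sum_congr rfl fun i _ => ?_) h3
      rw [pr_tmul, map_smul, LinearMap.smul_apply, smul_eq_mul]
    by_cases hi : i ∈ c.support
    · exact linearIndependent_iff'.1 b.linearIndependent _ _ h2 i hi
    · rw [Finsupp.notMem_support_iff.1 hi, map_zero, LinearMap.zero_apply]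
  have h2 : c = 0 := by
    ext i
    exact hB _ (h1 i)
  rw [h2, Finsupp.sum_zero_index]

theorem eig_line [IsAlgClosed E] [FiniteDimensional E W] (Φ : Module.End E W)
    (hsep : Φ.charpoly.Separable) {α : E} {w y : W} (hw : w ≠ 0) (hα : Φ w = α • w)
    (hy : Φ y = α • y) : ∃ c : E, c • w = y := by
  have h1 : Module.finrank E (Φ.eigenspace α) ≤ 1 :=
    (LinearMap.finrank_eigenspace_le Φ α).trans (rootMultiplicity_le_one_of_separable hsep α)
  have hw' : (⟨w, Module.End.mem_eigenspace_iff.2 hα⟩ : Φ.eigenspace α) ≠ 0 :=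
    fun h0 => hw (congrArg Subtype.val h0)
  have hnt : Nontrivial (Φ.eigenspace α) := ⟨⟨_, _, hw'⟩⟩
  have h2 : Module.finrank E (Φ.eigenspace α) = 1 :=
    le_antisymm h1 (Module.finrank_pos)
  obtain ⟨c, hc⟩ := (finrank_eq_one_iff_of_nonzero' _ hw').1 h2
    ⟨y, Module.End.mem_eigenspace_iff.2 hy⟩
  exact ⟨c, congrArg Subtype.val hc⟩

theorem aeval_eig (Φ : Module.End E W) {β : E} {y : W} (hy : Φ y = β • y) (g : E[X]) :
    aeval Φ g y = g.eval β • y := by
  induction g using Polynomial.induction_on' with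
  | add a b ha hb => rw [map_add, LinearMap.add_apply, ha, hb, eval_add, add_smul]
  | monomial j a =>
    rw [aeval_monomial, eval_monomial, Module.End.mul_apply, Module.algebraMap_end_apply]
    have h1 : (Φ ^ j) y = β ^ j • y := by
      induction j with
      | zero => rw [pow_zero, pow_zero, one_smul, Module.End.one_apply]
      | succ j ih => rw [pow_succ', Module.End.mul_apply, ih, map_smul, hy, smul_smul, ← pow_succ]
    rw [h1, smul_smul]

/-- tensors of eigenvectors are combinations of graphs -/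
theorem mem_graph [IsAlgClosed E] [FiniteDimensional E W] (Φ : Module.End E W)
    (hsep : Φ.charpoly.Separable) (hss : Φ.IsSemisimple) (B : W →ₗ[E] W →ₗ[E] E)
    (hB : ∀ v, (∀ x, B v x = 0) → v = 0) {ε Q : E} (hε : ∀ x y, B x y = ε * B y x)
    (hQ : Q ≠ 0) (hadj : ∀ x y, B (Φ x) (Φ y) = Q * B x y) (γ : ℕ → W ⊗[E] W)
    (hγ : ∀ t x y, pr B x y (γ t) = B x ((Φ ^ t) y)) {α α' : E} {w w' : W} (hw : w ≠ 0)
    (hα : Φ w = α • w) (hα' : Φ w' = α' • w') (hprod : α * α' = Q) :
    w ⊗ₜ[E] w' ∈ Submodule.span E (Set.range γ) := by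
  classical
  set g : E[X] := ∏ β ∈ Φ.charpoly.roots.toFinset.erase α, (X - C β) with hg
  have hgα : g.eval α ≠ 0 := by
    rw [hg, eval_prod, Finset.prod_ne_zero_iff]
    intro β hβ
    rw [eval_sub, eval_X, eval_C]
    exact sub_ne_zero.2 (Finset.ne_of_mem_erase hβ).symm
  have hgβ : ∀ β (y : W), y ≠ 0 → Φ y = β • y → β ≠ α → g.eval β = 0 := by
    intro β y hy hβ hne
    rw [hg, eval_prod]
    refine Finset.prod_eq_zero (i := β) ?_ (by rw [eval_sub, eval_X, eval_C, sub_self])
    rw [Finset.mem_erase, Multiset.mem_toFinset, mem_roots (LinearMap.charpoly_monic Φ).ne_zero,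
      ← Module.End.hasEigenvalue_iff_isRoot_charpoly]
    exact ⟨hne, Module.End.hasEigenvalue_of_hasEigenvector
      (Module.End.hasEigenvector_iff.2 ⟨Module.End.mem_eigenspace_iff.2 hβ, hy⟩)⟩
  have hα'0 : α' ≠ 0 := by
    rintro rfl
    rw [mul_zero] at hprod
    exact hQ hprod.symm
  set k : E := B w' w * ε * (g.eval α)⁻¹ with hk
  have h1 : w ⊗ₜ[E] w' - k • ∑ t ∈ range (g.natDegree + 1), g.coeff t • γ t = 0 := by
    apply pr_zero B hB
    intro x y
    have h2 : pr B x y (∑ t ∈ range (g.natDegree + 1), g.coeff t • γ t) = B x (aeval Φ g y) := by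
      rw [map_sum, aeval_eq_sum_range, LinearMap.sum_apply, map_sum]
      refine Finset.sum_congr rfl fun t _ => ?_
      rw [map_smul, hγ, LinearMap.smul_apply, map_smul]
    rw [map_sub, map_smul, h2, pr_tmul, sub_eq_zero]
    -- reduce to eigenvectors `y`
    have h3 : (⊤ : Submodule E W) ≤ LinearMap.ker
        ((B w x) • (B w') - k • ((B x) ∘ₗ (aeval Φ g : Module.End E W))) := by
      rw [← hss.iSup_eigenspace_eq_top]
      refine iSup_le fun β => ?_
      intro v hv
      have hv' := Module.End.mem_eigenspace_iff.1 hv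
      rw [LinearMap.mem_ker, LinearMap.sub_apply, LinearMap.smul_apply, LinearMap.smul_apply,
        LinearMap.comp_apply, aeval_eig Φ hv' g, map_smul, smul_eq_mul, smul_eq_mul, smul_eq_mul]
      by_cases hβ : β = α
      · subst hβ
        obtain ⟨c, rfl⟩ := eig_line Φ hsep hw hα hv'
        rw [map_smul, map_smul, smul_eq_mul, smul_eq_mul, hε w x, hk]
        field_simp
        ring
      · by_cases hv0 : v = 0
        · rw [hv0, map_zero, map_zero, mul_zero, mul_zero, mul_zero, sub_zero]
        · rw [hgβ β v hv0 hv' hβ, zero_mul, mul_zero, sub_zero]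
          have h4 := hadj w' v
          rw [hα', hv', map_smul, map_smul, LinearMap.smul_apply, smul_eq_mul, smul_eq_mul,
            ← hprod] at h4
          have h5 : α' * (β - α) * B w' v = 0 := by linear_combination h4
          rcases mul_eq_zero.1 h5 with h6 | h6
          · rcases mul_eq_zero.1 h6 with h7 | h7
            · exact absurd h7 hα'0
            · exact absurd (sub_eq_zero.1 h7) hβ
          · rw [h6, mul_zero]
    have h4 := h3 (Submodule.mem_top (x := y))
    rw [LinearMap.mem_ker, LinearMap.sub_apply, LinearMap.smul_apply, LinearMap.smul_apply,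
      LinearMap.comp_apply, sub_eq_zero] at h4
    exact h4
  rw [sub_eq_zero.1 h1]
  refine Submodule.smul_mem _ _ (Submodule.sum_mem _ fun t _ => ?_)
  exact Submodule.smul_mem _ _ (Submodule.subset_span ⟨t, rfl⟩)

end pairing

section span

variable {E : Type} [Field E]

theorem span_tmul {A B M N : Type} [AddCommGroup M] [Module E M] [AddCommGroup N] [Module E N]
    (f : A → M) (g : B → N) (hf : Submodule.span E (Set.range f) = ⊤)
    (hg : Submodule.span E (Set.range g) = ⊤) :
    Submodule.span E (Set.range fun ab : A × B => f ab.1 ⊗ₜ[E] g ab.2) = ⊤ := by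
  rw [eq_top_iff, ← TensorProduct.map₂_mk_top_top_eq_top, ← hf, ← hg, Submodule.map₂_span_span]
  refine Submodule.span_mono ?_
  rintro _ ⟨_, ⟨a, rfl⟩, _, ⟨b, rfl⟩, rfl⟩
  exact ⟨(a, b), rfl⟩

theorem tprod_mem_span {ι : Type} [Fintype ι] {H : ι → Type} [∀ i, AddCommGroup (H i)]
    [∀ i, Module E (H i)] (P : ∀ i, Set (H i)) (x : ∀ i, H i)
    (hx : ∀ i, x i ∈ Submodule.span E (P i)) :
    (⨂ₜ[E] i, x i) ∈ Submodule.span E {t | ∃ y : ∀ i, H i, (∀ i, y i ∈ P i) ∧
      (⨂ₜ[E] i, y i) = t} := by
  have h1 : ∀ i, Submodule.span E (Set.range fun y : P i =>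
      (⟨y.1, Submodule.subset_span y.2⟩ : Submodule.span E (P i))) = ⊤ := by
    intro i
    rw [← Submodule.span_span_coe_preimage (R := E) (s := P i)]
    congr 1
    ext y
    constructor
    · rintro ⟨z, rfl⟩
      exact z.2
    · intro hy
      exact ⟨⟨y.1, hy⟩, rfl⟩
  have h2 := PiTensorProduct.submodule_span_eq_top (R := E)
    (M := fun i => Submodule.span E (P i))
    (g := fun i => fun y : P i =>
      (⟨y.1, Submodule.subset_span y.2⟩ : Submodule.span E (P i))) h1
  have h3 : (⨂ₜ[E] i, x i) = PiTensorProduct.mapIncl (fun i => Submodule.span E (P i))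
      (⨂ₜ[E] i, (⟨x i, hx i⟩ : Submodule.span E (P i))) := by
    rw [PiTensorProduct.mapIncl, PiTensorProduct.map_tprod]
    rfl
  have h4 : (⨂ₜ[E] i, (⟨x i, hx i⟩ : Submodule.span E (P i))) ∈
      (⊤ : Submodule E (⨂[E] i, Submodule.span E (P i))) := Submodule.mem_top
  rw [← h2] at h4
  have h5 := Submodule.mem_map_of_mem
    (f := PiTensorProduct.mapIncl (fun i => Submodule.span E (P i))) h4
  rw [← h3, Submodule.map_span] at h5
  refine Submodule.span_mono ?_ h5
  rintro _ ⟨_, ⟨y, rfl⟩, rfl⟩
  refine ⟨fun i => (y i).1, fun i => (y i).2, ?_⟩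
  rw [PiTensorProduct.mapIncl, PiTensorProduct.map_tprod]
  rfl

end span

end Pool.Agent.TH943.TP
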