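import Pool.Agent.TH943.TP.Dbl
import Pool.Agent.TH943.TP.Gr

/-!
Tate classes on the products of the squares of the double coverings.
-/

set_option autoImplicit false
set_option maxHeartbeats 1000000

open Finset Polynomial TensorProduct

namespace Pool.Agent.TH943.TP

section gen

variable {E W : Type} [Field E] [AddCommGroup W] [Module E W]

/-- Frobenius on `E ⊕ W` -/
noncomputable def tot1 (Φ : Module.End E W) : Module.End E (E × W) :=
  LinearMap.prodMap LinearMap.id Φ

/-- indices of eigenvectors -/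
abbrev Gen1 (Φ : Module.End E W) : Type :=
  Unit ⊕ {x : E × W // x.2 ≠ 0 ∧ Φ x.2 = x.1 • x.2}

/-- eigenvectors -/
def gen1 (Φ : Module.End E W) : Gen1 Φ → E × W
  | .inl _ => (1, 0)
  | .inr x => (0, x.1.2)

/-- eigenvalues -/
def val1 (Φ : Module.End E W) : Gen1 Φ → E
  | .inl _ => 1
  | .inr x => x.1.1

theorem tot_gen1 (Φ : Module.End E W) (a : Gen1 Φ) :
    tot1 Φ (gen1 Φ a) = val1 Φ a • gen1 Φ a := by
  rcases a with k | x
  · show ((1, Φ 0) : E × W) = (1 : E) • (1, 0)
    rw [map_zero, one_smul]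
  · show ((0, Φ x.1.2) : E × W) = (x.1.1 • 0, x.1.1 • x.1.2)
    rw [x.2.2, smul_zero]

theorem span_gen1 [IsAlgClosed E] [FiniteDimensional E W] (Φ : Module.End E W)
    (h : Φ.IsSemisimple) : Submodule.span E (Set.range (gen1 Φ)) = ⊤ := by
  rw [eq_top_iff]
  rintro ⟨c, w⟩ -
  have h1 : ((c, w) : E × W) = c • ((1, 0) : E × W) + LinearMap.inr E _ _ w := by
    simp
  rw [h1]
  refine Submodule.add_mem _ ?_ ?_
  · exact Submodule.smul_mem _ _ (Submodule.subset_span ⟨Sum.inl (), rfl⟩)
  · have h2 : (⊤ : Submodule E W) ≤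
        (Submodule.span E (Set.range (gen1 Φ))).comap (LinearMap.inr E E W) := by
      rw [← h.iSup_eigenspace_eq_top]
      refine iSup_le fun μ => ?_
      intro v hv
      rw [Submodule.mem_comap]
      by_cases hv0 : v = 0
      · rw [hv0, map_zero]
        exact Submodule.zero_mem _
      · exact Submodule.subset_span
          ⟨Sum.inr ⟨(μ, v), hv0, Module.End.mem_eigenspace_iff.1 hv⟩, rfl⟩
    exact h2 Submodule.mem_top

/-- the classes of `U × U` and of the graphs -/
noncomputable def comp1 (γ : ℕ → W ⊗[E] W) : Option ℕ → (E × W) ⊗[E] (E × W)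
  | none => (1, 0) ⊗ₜ[E] (1, 0)
  | some t => TensorProduct.map (LinearMap.inr E E W) (LinearMap.inr E E W) (γ t)

end gen

/-- the space of the classes -/
noncomputable def gcl {ι : Type} [Fintype ι] (N : ι → ℕ) {E : Type} [Field E] {W : ι → Type}
    [∀ i, AddCommGroup (W i)] [∀ i, Module E (W i)] (γ : ∀ i, ℕ → W i ⊗[E] W i) (j : ℕ) :
    Submodule E (⨂[E] i, ((E × W i) ⊗[E] (E × W i))) :=
  Submodule.span E ((fun k : ι → Option ℕ => ⨂ₜ[E] i, comp1 (γ i) (k i)) ''
          {k | ∑ i, (if (k i).isSome then N i else 0) = j})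

theorem graph_main {q : ℕ} (hq1 : 1 < q)
    (hq : ∀ (k : Type) [Field k] [CharP k 2], ((q : ℕ) : k) = 1)
    {ι : Type} [Fintype ι] [DecidableEq ι] (N K M : ι → ℕ)
    (hcop : ∀ i j, i ≠ j → Nat.Coprime (M i) (M j)) {E : Type} [Field E] [CharZero E]
    [IsAlgClosed E] {W : ι → Type} [∀ i, AddCommGroup (W i)] [∀ i, Module E (W i)]
    [∀ i, FiniteDimensional E (W i)] (Φ : ∀ i, Module.End E (W i))
    (hsep : ∀ i, (Φ i).charpoly.Separable) (hss : ∀ i, (Φ i).IsSemisimple)
    (heig : ∀ i, ∀ (k : Type) [Field k] [CharP k 2] (θ : (integralClosure ℤ E).toSubring →+* k),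
        (∀ (α : E) (w : W i), w ≠ 0 → Φ i w = α • w → ∃ x : (integralClosure ℤ E).toSubring,
          (x : E) = α ∧ θ x ^ M i = 1 ∧ θ x ^ K i ≠ 1) ∧
        (∀ (x y : (integralClosure ℤ E).toSubring) (v w : W i), v ≠ 0 → w ≠ 0 →
          Φ i v = (x : E) • v → Φ i w = (y : E) • w → θ x = θ y → x = y))
    (B : ∀ i, W i →ₗ[E] W i →ₗ[E] E) (hB : ∀ i v, (∀ x, B i v x = 0) → v = 0)
    (hε : ∀ i x y, B i x y = (-1) ^ N i * B i y x)
    (hadj : ∀ i x y, B i (Φ i x) (Φ i y) = (q : E) ^ N i * B i x y)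
    (γ : ∀ i, ℕ → W i ⊗[E] W i)
    (hγ : ∀ i t x y, pr (B i) x y (γ i t) = B i x ((Φ i ^ t) y))
    {r : ℕ} (hr0 : 0 < r) (hr : ∀ i, Nat.Coprime (M i) r) (j : ℕ) :
    ∀ t ∈ Module.End.maxGenEigenspace ((PiTensorProduct.map
        (fun i => TensorProduct.map (tot1 (Φ i)) (tot1 (Φ i))) :
        Module.End E (⨂[E] i, ((E × W i) ⊗[E] (E × W i)))) ^ r) ((q : E) ^ (r * j)),
      t ∈ gcl N γ j := by
  have hq0 : (q : E) ≠ 0 := by
    have : q ≠ 0 := by omega
    exact_mod_cast this
  rw [maxGen_tensor (fun i => TensorProduct.map (tot1 (Φ i)) (tot1 (Φ i)))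
    (fun i => fun ab : Gen1 (Φ i) × Gen1 (Φ i) => gen1 (Φ i) ab.1 ⊗ₜ[E] gen1 (Φ i) ab.2)
    (fun i => fun ab : Gen1 (Φ i) × Gen1 (Φ i) => val1 (Φ i) ab.1 * val1 (Φ i) ab.2)
    (fun i ab => by
      rw [TensorProduct.map_tmul, tot_gen1, tot_gen1, TensorProduct.smul_tmul_smul])
    (fun i => span_tmul _ _ (span_gen1 (Φ i) (hss i)) (span_gen1 (Φ i) (hss i))) r]
  refine fun t ht => (Submodule.span_le (p := gcl N γ j)).2 ?_ ht
  rintro _ ⟨a, ha, rfl⟩
  have ha' : (∏ i, val1 (Φ i) (a i).1 * val1 (Φ i) (a i).2) ^ r = (q : E) ^ (r * j) := ha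
  obtain ⟨k, _, _, ⟨θ⟩⟩ := Pool.Agent.W804.HS.RD.main E 2 Nat.prime_two
  -- reductions of the eigenvalues
  have hlift : ∀ i (b : Gen1 (Φ i)), ∃ x : (integralClosure ℤ E).toSubring,
      (x : E) = val1 (Φ i) b ∧ θ x ^ M i = 1 ∧ (∀ y, b = Sum.inr y → θ x ≠ 1) ∧
        (∀ u, b = Sum.inl u → x = 1) := by
    intro i b
    rcases h : b with u | y
    · refine ⟨1, rfl, ?_, ?_, ?_⟩
      · rw [map_one, one_pow]
      · intro y hy
        exact absurd hy (by simp)
      · intro _ _
        rfl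
    · obtain ⟨x, hx1, hx2, hx3⟩ := (heig i k θ).1 y.1.1 y.1.2 y.2.1 y.2.2
      refine ⟨x, hx1, hx2, ?_, ?_⟩
      · intro _ _ h0
        exact hx3 (by rw [h0, one_pow])
      · intro u hu
        exact absurd hu (by simp)
  choose x hx1 hx2 hx3 hx4 using hlift
  have h1 : (∏ i, x i (a i).1 * x i (a i).2) ^ r =
      (q : (integralClosure ℤ E).toSubring) ^ (r * j) := by
    apply Subtype.ext
    push_cast
    rw [← ha']
    congr 1
    exact Finset.prod_congr rfl fun i _ => by rw [hx1, hx1]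
  have h2 : (∏ i, θ (x i (a i).1) * θ (x i (a i).2)) ^ r = 1 := by
    have h3 := congrArg θ h1
    rw [map_pow, map_prod, map_pow, map_natCast, hq k, one_pow] at h3
    rw [← h3]
    congr 1
    exact Finset.prod_congr rfl fun i _ => (map_mul _ _ _).symm
  have h3 : ∀ i, θ (x i (a i).1) * θ (x i (a i).2) = 1 := by
    intro i
    have h4 := order_dvd (fun i => θ (x i (a i).1) * θ (x i (a i).2)) (fun _ => 1) M
      (fun i => by rw [one_mul, mul_pow, hx2, hx2, one_mul])
      (fun i j hij => by rw [one_mul]; exact hcop i j hij) hr h2 i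
    rwa [pow_one] at h4
  -- the two possible kinds
  have hkind : ∀ i, ((a i).1 = Sum.inl () ∧ (a i).2 = Sum.inl ()) ∨
      ∃ y z, (a i).1 = Sum.inr y ∧ (a i).2 = Sum.inr z ∧ y.1.1 * z.1.1 = (q : E) ^ N i := by
    intro i
    rcases h4 : (a i).1 with u | y
    · rcases h5 : (a i).2 with v | z
      · exact Or.inl ⟨rfl, rfl⟩
      · exfalso
        have h6 := h3 i
        rw [hx4 i _ u h4, map_one, one_mul] at h6
        exact hx3 i _ z h5 h6
    · rcases h5 : (a i).2 with v | z
      · exfalso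
        have h6 := h3 i
        rw [hx4 i _ v h5, map_one, mul_one] at h6
        exact hx3 i _ y h4 h6
      · right
        refine ⟨y, z, rfl, rfl, ?_⟩
        -- the partner of `y`
        obtain ⟨v, hv⟩ : ∃ v, B i y.1.2 v ≠ 0 := by
          by_contra hcon
          push Not at hcon
          exact y.2.1 (hB i _ hcon)
        have h7 : ∃ β : E, ∃ v : W i, Φ i v = β • v ∧ B i y.1.2 v ≠ 0 := by
          by_contra hcon
          push Not at hcon
          have h8 : (⊤ : Submodule E (W i)) ≤ LinearMap.ker (B i y.1.2) := by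
            rw [← (hss i).iSup_eigenspace_eq_top]
            refine iSup_le fun β => ?_
            intro u hu
            exact hcon β u (Module.End.mem_eigenspace_iff.1 hu)
          exact hv (h8 (Submodule.mem_top (x := v)))
        obtain ⟨β, u, hu, hBu⟩ := h7
        have hu0 : u ≠ 0 := by
          rintro rfl
          exact hBu (map_zero _)
        have hβ : y.1.1 * β = (q : E) ^ N i := by
          have h8 := hadj i y.1.2 u
          rw [y.2.2, hu, map_smul, map_smul, LinearMap.smul_apply, smul_eq_mul,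
            smul_eq_mul] at h8
          apply mul_right_cancel₀ hBu
          rw [← h8]
          ring
        obtain ⟨xβ, hxβ1, -, -⟩ := (heig i k θ).1 β u hu0 hu
        have h9 : θ (x i (a i).1) * θ xβ = 1 := by
          have h10 : x i (a i).1 * xβ = (q : (integralClosure ℤ E).toSubring) ^ N i := by
            apply Subtype.ext
            push_cast
            rw [hx1, hxβ1, h4]
            exact hβ
          rw [← map_mul, h10, map_pow, map_natCast, hq k, one_pow]
        have h10 : θ (x i (a i).1) ≠ 0 := by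
          intro h0
          rw [h0, zero_mul] at h9
          exact zero_ne_one h9
        have h11 : θ (x i (a i).2) = θ xβ := mul_left_cancel₀ h10 ((h3 i).trans h9.symm)
        have h12 : (x i (a i).2 : E) = z.1.1 := by
          rw [hx1, h5]
          rfl
        have h13 := (heig i k θ).2 (x i (a i).2) xβ z.1.2 u z.2.1 hu0
          (by rw [h12]; exact z.2.2) (by rw [hxβ1]; exact hu) h11
        rw [← hβ, ← hxβ1, ← h13, h12]
  -- the sets of classes
  let P : ∀ i, Set ((E × W i) ⊗[E] (E × W i)) := fun i =>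
    {t | ∃ l : Option ℕ, ((a i).1 = Sum.inl () ↔ l = none) ∧ comp1 (γ i) l = t}
  have hmem : ∀ i, gen1 (Φ i) (a i).1 ⊗ₜ[E] gen1 (Φ i) (a i).2 ∈ Submodule.span E (P i) := by
    intro i
    rcases hkind i with ⟨h4, h5⟩ | ⟨y, z, h4, h5, h6⟩
    · refine Submodule.subset_span ⟨none, ?_, ?_⟩
      · exact ⟨fun _ => rfl, fun _ => h4⟩
      · rw [h4, h5]
        rfl
    · rw [h4, h5]
      have h7 := mem_graph (Φ i) (hsep i) (hss i) (B i) (hB i) (hε i) (pow_ne_zero _ hq0) (hadj i)
        (γ i) (hγ i) y.2.1 y.2.2 z.2.2 h6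
      have h8 := Submodule.mem_map_of_mem (f := TensorProduct.map (LinearMap.inr E E (W i))
        (LinearMap.inr E E (W i))) h7
      rw [TensorProduct.map_tmul, Submodule.map_span] at h8
      refine Submodule.span_mono ?_ h8
      rintro _ ⟨_, ⟨t, rfl⟩, rfl⟩
      refine ⟨some t, ?_, rfl⟩
      rw [h4]
      simp
  show _ ∈ Submodule.span E ((fun k : ι → Option ℕ => ⨂ₜ[E] i, comp1 (γ i) (k i)) ''
          {k | ∑ i, (if (k i).isSome then N i else 0) = j})
  refine Submodule.span_mono ?_ (tprod_mem_span P _ hmem)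
  rintro _ ⟨y, hy, rfl⟩
  choose l hl1 hl2 using hy
  refine ⟨l, ?_, ?_⟩
  · show ∑ i, (if (l i).isSome then N i else 0) = j
    have h4 : ∀ i, val1 (Φ i) (a i).1 * val1 (Φ i) (a i).2 =
        (q : E) ^ (if (l i).isSome then N i else 0) := by
      intro i
      rcases hkind i with ⟨h4, h5⟩ | ⟨y, z, h4, h5, h6⟩
      · have h7 : l i = none := (hl1 i).1 h4
        rw [h4, h5, h7]
        show (1 : E) * 1 = (q : E) ^ 0
        rw [pow_zero, one_mul]
      · have h7 : l i ≠ none := by
          intro h0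
          have := (hl1 i).2 h0
          rw [h4] at this
          exact absurd this (by simp)
        rw [if_pos (Option.isSome_iff_ne_none.2 h7), h4, h5]
        exact h6
    rw [Finset.prod_congr rfl fun i _ => h4 i, Finset.prod_pow_eq_pow_sum, ← pow_mul,
      mul_comm] at ha'
    have h5 : q ^ (r * ∑ i, (if (l i).isSome then N i else 0)) = q ^ (r * j) := by
      exact_mod_cast ha'
    exact Nat.eq_of_mul_eq_mul_left hr0 (Nat.pow_right_injective hq1 h5)
  · show (⨂ₜ[E] i, comp1 (γ i) (l i)) = _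
    congr 1
    funext i
    exact hl2 i

end Pool.Agent.TH943.TP
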