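import Mathlib

/-!
Irreducibility of a representation from a lattice whose reduction is the kernel of a map of
permutation modules; sums of semisimple representations.
-/

set_option autoImplicit false
set_option maxHeartbeats 1000000

open Finset

namespace Pool.Agent.TH943.TP.Lat

/-- the kernel of the map of permutation modules is irreducible -/
theorem residual {G R Q F : Type} [Group G] [Fintype R] [DecidableEq R] [DecidableEq Q] [Field F]
    (act : G → R → R) (hmul : ∀ σ τ r, act (σ * τ) r = act σ (act τ r)) (hone : ∀ r, act 1 r = r)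
    (c : R → Q) {m : ℕ} (hm : (m : F) ≠ 0)
    (hcard : ∀ r, (univ.filter fun r' => c r' = c r).card = m)
    (hpair : ∀ r r' s s', r ≠ r' → s ≠ s' → c r = c r' → c s = c s' →
      ∃ σ, act σ r = s ∧ act σ r' = s')
    {τ : G} {r0 r0' : R} (h0 : r0 ≠ r0') (hc0 : c r0 = c r0') (h1 : act τ r0 = r0')
    (h2 : act τ r0' = r0) (h3 : ∀ s, s ≠ r0 → s ≠ r0' → act τ s = s)
    (W : Submodule F (R → F)) (hW : ∀ σ, ∀ w ∈ W, (fun r => w (act σ⁻¹ r)) ∈ W)
    (hWK : ∀ w ∈ W, ∀ r, ∑ r' ∈ univ.filter (fun r' => c r' = c r), w r' = 0)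
    (hne : ∃ w ∈ W, w ≠ 0) (w : R → F)
    (hw : ∀ r, ∑ r' ∈ univ.filter (fun r' => c r' = c r), w r' = 0) : w ∈ W := by
  have hinv : ∀ σ r, act σ⁻¹ (act σ r) = r := fun σ r => by rw [← hmul, inv_mul_cancel, hone]
  have hinv' : ∀ σ r, act σ (act σ⁻¹ r) = r := fun σ r => by rw [← hmul, mul_inv_cancel, hone]
  -- a difference of two basis vectors
  obtain ⟨x, hxW, hx0⟩ := hne
  have hdiff : ∃ r r', r ≠ r' ∧ c r = c r' ∧ x r ≠ x r' := by
    by_contra hcon
    push Not at hcon
    apply hx0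
    funext r
    have h4 : ∀ r' ∈ univ.filter (fun r' => c r' = c r), x r' = x r := by
      intro r' hr'
      by_cases hrr : r' = r
      · rw [hrr]
      · exact hcon r' r hrr (mem_filter.1 hr').2
    have h5 := hWK x hxW r
    rw [sum_congr rfl h4, sum_const, hcard, nsmul_eq_mul] at h5
    exact (mul_eq_zero.1 h5).resolve_left hm
  obtain ⟨r, r', hrr, hcr, hxr⟩ := hdiff
  obtain ⟨σ, hσ1, hσ2⟩ := hpair r0 r0' r r' h0 hrr hc0 hcr
  have hτ1 : act (σ * τ * σ⁻¹) r = r' := by
    rw [hmul, hmul, ← hσ1, hinv, h1, hσ2]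
  have hτ2 : act (σ * τ * σ⁻¹) r' = r := by
    rw [hmul, hmul, ← hσ2, hinv, h2, hσ1]
  have hτ3 : ∀ s, s ≠ r → s ≠ r' → act (σ * τ * σ⁻¹) s = s := by
    intro s hs hs'
    rw [hmul, hmul, h3, hinv']
    · intro h
      apply hs
      rw [← hσ1, ← h, hinv']
    · intro h
      apply hs'
      rw [← hσ2, ← h, hinv']
  set υ := σ * τ * σ⁻¹ with hυ
  have hυinv1 : act υ⁻¹ r = r' := by rw [← hτ2, hinv]
  have hυinv2 : act υ⁻¹ r' = r := by rw [← hτ1, hinv]
  have hυinv3 : ∀ s, s ≠ r → s ≠ r' → act υ⁻¹ s = s := by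
    intro s hs hs'
    have h6 := hinv υ s
    rw [hτ3 s hs hs'] at h6
    exact h6
  have hd : (Pi.single r 1 - Pi.single r' 1 : R → F) ∈ W := by
    have h6 : (x - fun s => x (act υ⁻¹ s)) ∈ W := Submodule.sub_mem _ hxW (hW υ x hxW)
    have h7 : (Pi.single r 1 - Pi.single r' 1 : R → F) =
        (x r - x r')⁻¹ • (x - fun s => x (act υ⁻¹ s)) := by
      have hne' : x r - x r' ≠ 0 := sub_ne_zero.2 hxr
      funext s
      rw [Pi.sub_apply, Pi.smul_apply, Pi.sub_apply, smul_eq_mul]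
      by_cases hs : s = r
      · subst hs
        rw [hυinv1, Pi.single_eq_same, Pi.single_eq_of_ne hrr, sub_zero, inv_mul_cancel₀ hne']
      · by_cases hs' : s = r'
        · subst hs'
          rw [hυinv2, Pi.single_eq_same, Pi.single_eq_of_ne hs, zero_sub,
            ← neg_sub (x r) (x s), mul_neg, inv_mul_cancel₀ hne']
        · rw [hυinv3 s hs hs', Pi.single_eq_of_ne hs, Pi.single_eq_of_ne hs', sub_self, sub_self,
            mul_zero]
    rw [h7]
    exact Submodule.smul_mem _ _ h6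
  have hd' : ∀ s s', c s = c s' → (Pi.single s 1 - Pi.single s' 1 : R → F) ∈ W := by
    intro s s' hss
    by_cases hs : s = s'
    · rw [hs, sub_self]
      exact Submodule.zero_mem _
    · obtain ⟨υ, h8, h9⟩ := hpair r r' s s' hrr hs hcr hss
      have h10 := hW υ _ hd
      have h11 : (fun t => (Pi.single r 1 - Pi.single r' 1 : R → F) (act υ⁻¹ t)) =
          (Pi.single s 1 - Pi.single s' 1 : R → F) := by
        have h12 : ∀ (a b : R), act υ a = b →
            ∀ t, (Pi.single a 1 : R → F) (act υ⁻¹ t) = (Pi.single b 1 : R → F) t := by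
          intro a b hab t
          by_cases ht : t = b
          · rw [ht, ← hab, hinv, Pi.single_eq_same, Pi.single_eq_same]
          · rw [Pi.single_eq_of_ne ht, Pi.single_eq_of_ne]
            intro h13
            apply ht
            rw [← hab, ← h13, hinv']
        funext t
        rw [Pi.sub_apply, Pi.sub_apply, h12 r s h8, h12 r' s' h9]
      rw [h11] at h10
      exact h10
  -- the base points
  have hB : ∃ B : R → R, (∀ s, c (B s) = c s) ∧ ∀ s s', c s = c s' → B s = B s' := by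
    refine ⟨fun s => Classical.choose (⟨s, rfl⟩ : ∃ t, c t = c s), fun s =>
      Classical.choose_spec (⟨s, rfl⟩ : ∃ t, c t = c s), ?_⟩
    intro s s' hss
    have h14 : (fun t => c t = c s) = fun t => c t = c s' := by
      funext t
      rw [hss]
    simp only [h14]
  obtain ⟨B, hB1, hB2⟩ := hB
  have hdec : w = ∑ s, w s • (Pi.single s 1 - Pi.single (B s) 1 : R → F) := by
    have h15 : ∑ s, w s • (Pi.single (B s) 1 : R → F) = 0 := by
      funext t
      rw [Finset.sum_apply, Pi.zero_apply]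
      have h16 : ∀ s, (w s • (Pi.single (B s) 1 : R → F)) t =
          if B s = t then w s else 0 := by
        intro s
        rw [Pi.smul_apply, smul_eq_mul]
        by_cases hs : B s = t
        · rw [if_pos hs, hs, Pi.single_eq_same, mul_one]
        · rw [if_neg hs, Pi.single_eq_of_ne (Ne.symm hs), mul_zero]
      rw [sum_congr rfl fun s _ => h16 s, ← sum_filter]
      by_cases ht : B t = t
      · have h17 : (univ.filter fun s => B s = t) = univ.filter fun s => c s = c t := by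
          ext s
          rw [mem_filter, mem_filter]
          refine ⟨fun h => ⟨h.1, ?_⟩, fun h => ⟨h.1, ?_⟩⟩
          · rw [← h.2, hB1]
          · rw [hB2 s t h.2, ht]
        rw [h17]
        exact hw t
      · refine sum_eq_zero fun s hs => ?_
        exfalso
        apply ht
        have h18 := (mem_filter.1 hs).2
        rw [← h18]
        exact hB2 _ _ (hB1 s)
    have h19 : w = ∑ s, w s • (Pi.single s 1 : R → F) := by
      funext t
      rw [Finset.sum_apply, sum_eq_single t]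
      · rw [Pi.smul_apply, Pi.single_eq_same, smul_eq_mul, mul_one]
      · intro s _ hs
        rw [Pi.smul_apply, Pi.single_eq_of_ne (Ne.symm hs), smul_zero]
      · intro ht
        exact absurd (mem_univ t) ht
    simp only [smul_sub, sum_sub_distrib]
    rw [h15, sub_zero, ← h19]
  rw [hdec]
  exact Submodule.sum_mem _ fun s _ => Submodule.smul_mem _ _ (hd' s (B s) (hB1 s).symm)

/-- irreducibility from a lattice -/
theorem irreducible_of_lattice {G O L V F R : Type} [Group G] [CommRing O] [IsDomain O]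
    [IsLocalRing O] [IsNoetherianRing O] [Field L] [Algebra O L] [IsFractionRing O L]
    [AddCommGroup V] [Module L V] [Module O V] [IsScalarTower O L V] [Field F] [Algebra O F]
    (hOF : Function.Surjective (algebraMap O F)) (ρ : Representation L G V) (Λ : Submodule O V)
    (fg : Λ.FG) (span : ∀ v : V, ∃ a : O, a ≠ 0 ∧ a • v ∈ Λ)
    (stable : ∀ σ, ∀ v ∈ Λ, ρ σ v ∈ Λ) (act : G → R → R)
    (hinv : ∀ σ r, act σ (act σ⁻¹ r) = r)
    (red : Λ →ₗ[O] (R → F))
    (equi : ∀ (σ : G) (v : Λ) (r : R), red ⟨ρ σ v, stable σ v v.2⟩ (act σ r) = red v r)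
    (K : Submodule F (R → F)) (hK : ∀ w, w ∈ LinearMap.range red ↔ w ∈ K)
    (hirr : ∀ W : Submodule F (R → F), (∀ σ, ∀ w ∈ W, (fun r => w (act σ⁻¹ r)) ∈ W) → W ≤ K →
      (∃ w ∈ W, w ≠ 0) → K ≤ W)
    (hker : ∀ v : Λ, red v = 0 → ∃ a ∈ IsLocalRing.maximalIdeal O, ∃ v' : Λ, v = a • v')
    (W : Submodule L V) (hW : ∀ σ, ∀ w ∈ W, ρ σ w ∈ W) : W = ⊥ ∨ W = ⊤ := by
  classical
  have halg : ∀ (a : O) (v : V), a • v = (algebraMap O L a) • v := fun a v =>
    (algebraMap_smul L a v).symm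
  have hscal : ∀ (a : O) (v : V), a ≠ 0 → a • v ∈ W → v ∈ W := by
    intro a v ha hv
    rw [halg] at hv
    have h1 : algebraMap O L a ≠ 0 := by
      rw [Ne, FaithfulSMul.algebraMap_eq_zero_iff]
      exact ha
    have h2 := W.smul_mem (algebraMap O L a)⁻¹ hv
    rwa [smul_smul, inv_mul_cancel₀ h1, one_smul] at h2
  -- the intersection with the lattice
  set ΛW : Submodule O V := W.restrictScalars O ⊓ Λ with hΛW
  have hfgW : ΛW.FG := by
    have hn : IsNoetherian O Λ := isNoetherian_of_fg_of_noetherian Λ fg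
    exact isNoetherian_submodule.1 hn ΛW inf_le_right
  have hjac : IsLocalRing.maximalIdeal O ≤ Ideal.jacobson ⊥ :=
    IsLocalRing.maximalIdeal_le_jacobson ⊥
  -- the image of the intersection
  set WF : Submodule F (R → F) :=
    { carrier := {w | ∃ v : Λ, (v : V) ∈ W ∧ red v = w}
      add_mem' := by
        rintro _ _ ⟨v, hv, rfl⟩ ⟨v', hv', rfl⟩
        exact ⟨v + v', W.add_mem hv hv', map_add _ _ _⟩
      zero_mem' := ⟨0, W.zero_mem, map_zero _⟩
      smul_mem' := by
        rintro x _ ⟨v, hv, rfl⟩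
        obtain ⟨a, rfl⟩ := hOF x
        refine ⟨a • v, ?_, ?_⟩
        · show a • (v : V) ∈ W
          rw [halg]
          exact W.smul_mem _ hv
        · rw [map_smul, algebraMap_smul] } with hWF
  have hstab : ∀ σ, ∀ w ∈ WF, (fun r => w (act σ⁻¹ r)) ∈ WF := by
    rintro σ _ ⟨v, hv, rfl⟩
    refine ⟨⟨ρ σ v, stable σ v v.2⟩, hW σ _ hv, ?_⟩
    funext r
    have h1 := equi σ v (act σ⁻¹ r)
    rw [hinv] at h1
    exact h1
  have hle : WF ≤ K := by
    rintro _ ⟨v, hv, rfl⟩
    exact (hK _).1 ⟨v, rfl⟩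
  by_cases hne : ∃ w ∈ WF, w ≠ 0
  · right
    have h1 : K ≤ WF := hirr WF hstab hle hne
    have h2 : Λ ≤ ΛW ⊔ IsLocalRing.maximalIdeal O • Λ := by
      intro v hv
      obtain ⟨v', hv', hred⟩ := h1 ((hK _).1 ⟨⟨v, hv⟩, rfl⟩)
      obtain ⟨a, ha, v'', h3⟩ := hker (⟨v, hv⟩ - v') (by rw [map_sub, hred, sub_self])
      have h4 : v = (v' : V) + a • (v'' : V) := by
        have h5 := congrArg Subtype.val h3
        have h6 : v - (v' : V) = a • (v'' : V) := h5
        rw [← h6]
        abel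
      rw [h4]
      exact Submodule.add_mem_sup ⟨hv', v'.2⟩ (Submodule.smul_mem_smul ha v''.2)
    have h3 : Λ ≤ ΛW := Submodule.le_of_le_smul_of_le_jacobson_bot fg hjac h2
    rw [eq_top_iff]
    rintro v -
    obtain ⟨a, ha, hav⟩ := span v
    exact hscal a v ha (h3 hav).1
  · left
    push Not at hne
    have h1 : ΛW ≤ IsLocalRing.maximalIdeal O • ΛW := by
      rintro v ⟨hv, hv'⟩
      obtain ⟨a, ha, v'', h3⟩ := hker ⟨v, hv'⟩ (hne _ ⟨⟨v, hv'⟩, hv, rfl⟩)
      have h4 : v = a • (v'' : V) := congrArg Subtype.val h3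
      by_cases ha0 : a = 0
      · rw [h4, ha0, zero_smul]
        exact Submodule.zero_mem _
      · have h5 : (v'' : V) ∈ W := hscal a _ ha0 (by rw [← h4]; exact hv)
        rw [h4]
        exact Submodule.smul_mem_smul ha ⟨h5, v''.2⟩
    have h2 : ΛW = ⊥ := Submodule.eq_bot_of_le_smul_of_le_jacobson_bot _ _ hfgW h1 hjac
    rw [eq_bot_iff]
    intro v hv
    obtain ⟨a, ha, hav⟩ := span v
    have h3 : a • v ∈ ΛW := by
      refine ⟨?_, hav⟩
      show a • v ∈ W
      rw [halg]
      exact W.smul_mem _ hv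
    rw [h2, Submodule.mem_bot, halg, smul_eq_zero] at h3
    rcases h3 with h3 | h3
    · rw [FaithfulSMul.algebraMap_eq_zero_iff] at h3
      exact absurd h3 ha
    · rw [h3]
      exact Submodule.zero_mem _

/-- a stable subspace -/
def Stable {G L H : Type} [Group G] [Field L] [AddCommGroup H] [Module L H]
    (ρ : Representation L G H) (W : Submodule L H) : Prop := ∀ σ, ∀ w ∈ W, ρ σ w ∈ W

/-- a semisimple subspace -/
def Semi {G L H : Type} [Group G] [Field L] [AddCommGroup H] [Module L H]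
    (ρ : Representation L G H) (P : Submodule L H) : Prop :=
  Stable ρ P ∧ ∀ W ≤ P, Stable ρ W → ∃ W' ≤ P, Stable ρ W' ∧ W ⊔ W' = P ∧ W ⊓ W' = ⊥

theorem Stable.sup {G L H : Type} [Group G] [Field L] [AddCommGroup H] [Module L H]
    {ρ : Representation L G H} {W W' : Submodule L H} (h : Stable ρ W) (h' : Stable ρ W') :
    Stable ρ (W ⊔ W') := by
  intro σ w hw
  obtain ⟨a, ha, b, hb, rfl⟩ := Submodule.mem_sup.1 hw
  rw [map_add]
  exact Submodule.add_mem_sup (h σ a ha) (h' σ b hb)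

theorem Stable.inf {G L H : Type} [Group G] [Field L] [AddCommGroup H] [Module L H]
    {ρ : Representation L G H} {W W' : Submodule L H} (h : Stable ρ W) (h' : Stable ρ W') :
    Stable ρ (W ⊓ W') := fun σ w hw => ⟨h σ w hw.1, h' σ w hw.2⟩

/-- a sum of semisimple subspaces is semisimple -/
theorem semi_of_sum {G L H I : Type} [Group G] [Field L] [AddCommGroup H] [Module L H]
    [FiniteDimensional L H] (ρ : Representation L G H) (P : I → Submodule L H)
    (hP : ∀ i, Semi ρ (P i)) (hsup : ⨆ i, P i = ⊤) (W : Submodule L H) (hW : Stable ρ W) :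
    ∃ W' : Submodule L H, Stable ρ W' ∧ IsCompl W W' := by
  classical
  -- a maximal stable subspace with zero intersection
  have hex : ∃ W' : Submodule L H, (Stable ρ W' ∧ Disjoint W W') ∧
      ∀ W'' : Submodule L H, Stable ρ W'' ∧ Disjoint W W'' → W' ≤ W'' → W'' = W' := by
    have hwf : WellFounded ((· > ·) : Submodule L H → Submodule L H → Prop) := wellFounded_gt
    obtain ⟨W', hW', hmax⟩ := hwf.has_min {W' : Submodule L H | Stable ρ W' ∧ Disjoint W W'}
      ⟨⊥, fun σ w hw => by rw [(Submodule.mem_bot L).1 hw, map_zero]; exact Submodule.zero_mem _,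
        disjoint_bot_right⟩
    refine ⟨W', hW', fun W'' hW'' hle => ?_⟩
    by_contra hne
    exact hmax W'' hW'' (lt_of_le_of_ne hle (Ne.symm hne))
  obtain ⟨W', ⟨hW's, hdis⟩, hmax⟩ := hex
  refine ⟨W', hW's, hdis, ?_⟩
  rw [codisjoint_iff, eq_top_iff, ← hsup]
  refine iSup_le fun i => ?_
  obtain ⟨hPs, hPc⟩ := hP i
  obtain ⟨N', hN'P, hN's, hN'1, hN'2⟩ := hPc ((W ⊔ W') ⊓ P i) inf_le_right
    ((hW.sup hW's).inf hPs)
  have h1 : Disjoint (W ⊔ W') N' := by
    rw [disjoint_iff, eq_bot_iff, ← hN'2]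
    intro x hx
    exact ⟨⟨hx.1, hN'P hx.2⟩, hx.2⟩
  have h2 : Disjoint W (W' ⊔ N') := hdis.disjoint_sup_right_of_disjoint_sup_left h1
  have h3 := hmax (W' ⊔ N') ⟨hW's.sup hN's, h2⟩ le_sup_left
  have h4 : N' ≤ W ⊔ W' := le_trans (le_trans le_sup_right h3.le) le_sup_right
  have h5 : N' = ⊥ := by
    have := h1.le_bot
    rw [eq_bot_iff]
    intro x hx
    exact h1.le_bot ⟨h4 hx, hx⟩
  rw [h5, sup_bot_eq] at hN'1
  rw [← hN'1]
  exact inf_le_left

/-- the image of an irreducible representation is semisimple -/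
theorem semi_range {G L V H : Type} [Group G] [Field L] [AddCommGroup V] [Module L V]
    [AddCommGroup H] [Module L H] (ρV : Representation L G V) (ρ : Representation L G H)
    (hirr : ∀ W : Submodule L V, (∀ σ, ∀ w ∈ W, ρV σ w ∈ W) → W = ⊥ ∨ W = ⊤)
    (π : V →ₗ[L] H) (hπ : ∀ σ v, π (ρV σ v) = ρ σ (π v)) : Semi ρ (LinearMap.range π) := by
  refine ⟨?_, fun W hW hWs => ?_⟩
  · rintro σ _ ⟨v, rfl⟩
    exact ⟨ρV σ v, hπ σ v⟩
  · have h1 := hirr (W.comap π) (by
      intro σ w hw
      rw [Submodule.mem_comap, hπ]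
      exact hWs σ _ hw)
    have h2 : W = (W.comap π).map π := by
      rw [Submodule.map_comap_eq, inf_eq_right.2 hW]
    rcases h1 with h1 | h1
    · rw [h1, Submodule.map_bot] at h2
      refine ⟨LinearMap.range π, le_rfl, ?_, ?_, ?_⟩
      · rintro σ _ ⟨v, rfl⟩
        exact ⟨ρV σ v, hπ σ v⟩
      · rw [h2, bot_sup_eq]
      · rw [h2, bot_inf_eq]
    · rw [h1, Submodule.map_top] at h2
      refine ⟨⊥, bot_le, fun σ w hw => ?_, ?_, ?_⟩
      · rw [(Submodule.mem_bot L).1 hw, map_zero]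
        exact Submodule.zero_mem _
      · rw [h2, sup_bot_eq]
      · rw [inf_bot_eq]

/-- a subspace on which a subgroup of finite index acts trivially is semisimple -/
theorem semi_of_finite {G L H : Type} [Group G] [Field L] [CharZero L] [AddCommGroup H]
    [Module L H] (ρ : Representation L G H) (N : Submodule L H) (hN : Stable ρ N)
    (G0 : Subgroup G) (hG0 : G0.FiniteIndex) (h0 : ∀ σ ∈ G0, ∀ w ∈ N, ρ σ w = w) :
    Semi ρ N := by
  classical
  refine ⟨hN, fun W hWN hW => ?_⟩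
  obtain ⟨e, he⟩ := W.subtype.exists_leftInverse_of_injective (Submodule.ker_subtype W)
  have he' : ∀ w (hw : w ∈ W), ((e w : W) : H) = w := by
    intro w hw
    have h1 := LinearMap.congr_fun he ⟨w, hw⟩
    exact congrArg Subtype.val h1
  set φ : G → H → H := fun g n => ρ g ((e (ρ g⁻¹ n) : W) : H) with hφ
  have hφW : ∀ g n, φ g n ∈ W := fun g n => hW g _ (e _).2
  have hφ0 : ∀ g, ∀ g0 ∈ G0, ∀ n ∈ N, φ (g * g0) n = φ g n := by
    intro g g0 hg0 n hn
    simp only [hφ]
    rw [map_mul, Module.End.mul_apply, mul_inv_rev, map_mul, Module.End.mul_apply,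
      h0 _ (G0.inv_mem hg0) _ (hN _ _ hn), h0 _ hg0 _ (hWN (e _).2)]
  have hφσ : ∀ σ g n, ρ σ (φ g n) = φ (σ * g) (ρ σ n) := by
    intro σ g n
    simp only [hφ]
    rw [map_mul, Module.End.mul_apply, ← Module.End.mul_apply (ρ (σ * g)⁻¹), ← map_mul]
    congr 4
    rw [mul_inv_rev, mul_assoc, inv_mul_cancel, mul_one]
  have hφw : ∀ g, ∀ w ∈ W, φ g w = w := by
    intro g w hw
    simp only [hφ]
    rw [he' _ (hW _ _ hw), ← Module.End.mul_apply, ← map_mul, mul_inv_cancel, map_one,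
      Module.End.one_apply]
  have hfin : Finite (G ⧸ G0) := inferInstance
  let _ : Fintype (G ⧸ G0) := Fintype.ofFinite _
  set A : H → H := fun n => ∑ x : G ⧸ G0, φ x.out n with hA
  have hAadd : ∀ n n', A (n + n') = A n + A n' := by
    intro n n'
    simp only [hA, hφ, map_add, Submodule.coe_add, sum_add_distrib]
  have hAsmul : ∀ (a : L) n, A (a • n) = a • A n := by
    intro a n
    simp only [hA, hφ, map_smul, Submodule.coe_smul, smul_sum]
  have hAW : ∀ n, A n ∈ W := fun n => Submodule.sum_mem _ fun x _ => hφW _ _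
  have hAσ : ∀ σ, ∀ n ∈ N, ρ σ (A n) = A (ρ σ n) := by
    intro σ n hn
    simp only [hA]
    have h2 : ∑ x : G ⧸ G0, φ (Quotient.out x) (ρ σ n) =
        ∑ x : G ⧸ G0, φ (Quotient.out ((MulAction.toPerm σ : Equiv.Perm (G ⧸ G0)) x)) (ρ σ n) :=
      (Equiv.sum_comp (MulAction.toPerm σ : Equiv.Perm (G ⧸ G0))
        fun x : G ⧸ G0 => φ (Quotient.out x) (ρ σ n)).symm
    rw [map_sum, h2]
    refine sum_congr rfl fun x _ => ?_
    rw [hφσ]
    have h1 : (MulAction.toPerm σ : Equiv.Perm (G ⧸ G0)) x =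
        ((σ * x.out : G) : G ⧸ G0) := by
      rw [MulAction.toPerm_apply]
      conv_lhs => rw [← QuotientGroup.out_eq' x]
      rfl
    obtain ⟨g0, hg0⟩ := QuotientGroup.mk_out_eq_mul G0 (σ * x.out)
    rw [h1, hg0, hφ0 _ _ g0.2 _ (hN _ _ hn)]
  set c : L := (Fintype.card (G ⧸ G0) : L) with hc
  have hc0 : c ≠ 0 := by
    rw [hc]
    exact_mod_cast Fintype.card_ne_zero
  have hAw : ∀ w ∈ W, A w = c • w := by
    intro w hw
    simp only [hA]
    rw [sum_congr rfl fun x _ => hφw _ w hw, sum_const, card_univ, hc, Nat.cast_smul_eq_nsmul]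
  set W' : Submodule L H :=
    { carrier := {n | n ∈ N ∧ A n = 0}
      add_mem' := by
        rintro a b ⟨ha, ha'⟩ ⟨hb, hb'⟩
        exact ⟨N.add_mem ha hb, by rw [hAadd, ha', hb', add_zero]⟩
      zero_mem' := ⟨N.zero_mem, by
        have := hAsmul 0 0
        rwa [zero_smul, zero_smul] at this⟩
      smul_mem' := by
        rintro a b ⟨hb, hb'⟩
        exact ⟨N.smul_mem a hb, by rw [hAsmul, hb', smul_zero]⟩ } with hW'
  refine ⟨W', fun n hn => hn.1, ?_, ?_, ?_⟩
  · rintro σ n ⟨hn, hn'⟩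
    exact ⟨hN σ n hn, by rw [← hAσ σ n hn, hn', map_zero]⟩
  · refine le_antisymm (sup_le hWN fun n hn => hn.1) ?_
    intro n hn
    have h1 : n = c⁻¹ • A n + (n - c⁻¹ • A n) := by abel
    rw [h1]
    refine Submodule.add_mem_sup (W.smul_mem _ (hAW n)) ⟨?_, ?_⟩
    · exact N.sub_mem hn (N.smul_mem _ (hWN (hAW n)))
    · have h2 : A (n - c⁻¹ • A n) = A n + (-c⁻¹) • A (A n) := by
        have h3 : n - c⁻¹ • A n = n + (-c⁻¹) • A n := by rw [neg_smul, sub_eq_add_neg]
        rw [h3, hAadd, hAsmul]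
      rw [h2, hAw _ (hAW n), smul_smul, neg_mul, inv_mul_cancel₀ hc0, neg_smul, one_smul,
        add_neg_cancel]
  · rw [eq_bot_iff]
    rintro w ⟨hw, -, hw'⟩
    rw [hAw w hw, smul_eq_zero] at hw'
    exact hw'.resolve_left hc0

end Pool.Agent.TH943.TP.Lat
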