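import Mathlib

/-!
Linear algebra: eigenspaces of an endomorphism which is diagonal on a generating family, and of a
tensor product of such endomorphisms; and relations between roots of unity.
-/

set_option autoImplicit false
set_option maxHeartbeats 1000000

open Finset Polynomial TensorProduct

namespace Pool.Agent.TH943.TP

theorem maxGen_of_span {E T A : Type*} [Field E] [AddCommGroup T] [Module E T]
    (F : Module.End E T) (g : A → T) (c : A → E) (hg : ∀ a, F (g a) = c a • g a)
    (hspan : Submodule.span E (Set.range g) = ⊤) (μ : E) :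
    F.maxGenEigenspace μ = Submodule.span E (g '' {a | c a = μ}) := by
  set S : E → Submodule E T := fun ν => Submodule.span E (g '' {a | c a = ν}) with hS
  have h1 : ∀ ν, S ν ≤ F.maxGenEigenspace ν := by
    intro ν
    rw [hS]
    refine Submodule.span_le.2 ?_
    rintro _ ⟨a, ha, rfl⟩
    refine (Module.End.mem_maxGenEigenspace F ν (g a)).2 ⟨1, ?_⟩
    have ha' : c a = ν := ha
    rw [pow_one, LinearMap.sub_apply, LinearMap.smul_apply, Module.End.one_apply, hg, ha', sub_self]
  have h2 : ⨆ ν, S ν = ⊤ := by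
    rw [eq_top_iff, ← hspan]
    refine Submodule.span_le.2 ?_
    rintro _ ⟨a, rfl⟩
    exact Submodule.mem_iSup_of_mem (c a) (Submodule.subset_span ⟨a, rfl, rfl⟩)
  refine le_antisymm ?_ (h1 μ)
  intro x hx
  have h3 : x ∈ S μ ⊔ ⨆ (ν) (_ : ν ≠ μ), S ν := by
    rw [← iSup_split_single S μ, h2]
    exact Submodule.mem_top
  obtain ⟨a, ha, b, hb, rfl⟩ := Submodule.mem_sup.1 h3
  have h4 : b ∈ ⨆ (ν) (_ : ν ≠ μ), F.maxGenEigenspace ν :=
    (iSup_mono fun ν => iSup_mono fun _ => h1 ν) hb
  have h5 : b ∈ F.maxGenEigenspace μ := by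
    have := Submodule.sub_mem _ hx (h1 μ ha)
    rwa [add_sub_cancel_left] at this
  have h6 : b = 0 := by
    have := (Module.End.independent_maxGenEigenspace F μ).le_bot
      (Submodule.mem_inf.2 ⟨h5, h4⟩)
    exact (Submodule.mem_bot E).1 this
  rw [h6, add_zero]
  exact ha

/-- tensor products -/
theorem maxGen_tensor {E : Type*} [Field E] {ι : Type*} [Fintype ι] {H : ι → Type*}
    [∀ i, AddCommGroup (H i)] [∀ i, Module E (H i)] (F : ∀ i, Module.End E (H i))
    {γ : ι → Type*} (g : ∀ i, γ i → H i) (c : ∀ i, γ i → E)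
    (hg : ∀ i a, F i (g i a) = c i a • g i a)
    (hspan : ∀ i, Submodule.span E (Set.range (g i)) = ⊤) (r : ℕ) (μ : E) :
    Module.End.maxGenEigenspace ((PiTensorProduct.map F : Module.End E (⨂[E] i, H i)) ^ r) μ =
      Submodule.span E ((fun a : ∀ i, γ i => ⨂ₜ[E] i, g i (a i)) ''
        {a | (∏ i, c i (a i)) ^ r = μ}) := by
  refine maxGen_of_span _ (fun a : ∀ i, γ i => ⨂ₜ[E] i, g i (a i))
    (fun a => (∏ i, c i (a i)) ^ r) ?_
    (PiTensorProduct.submodule_span_eq_top (R := E) (M := H) (g := fun i => g i) hspan) μ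
  intro a
  show ((PiTensorProduct.map F : Module.End E (⨂[E] i, H i)) ^ r) (⨂ₜ[E] i, g i (a i)) =
    (∏ i, c i (a i)) ^ r • (⨂ₜ[E] i, g i (a i))
  induction r with
  | zero => rw [pow_zero, pow_zero, one_smul, Module.End.one_apply]
  | succ r ih =>
    rw [pow_succ', Module.End.mul_apply, ih, map_smul, PiTensorProduct.map_tprod]
    have h1 : (fun i => F i (g i (a i))) = fun i => c i (a i) • g i (a i) :=
      funext fun i => hg i (a i)
    rw [h1, MultilinearMap.map_smul_univ, smul_smul, ← pow_succ]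

theorem order_dvd {k : Type*} [Field k] {ι : Type*} [Fintype ι] [DecidableEq ι] (u : ι → k)
    (K m : ι → ℕ) (h1 : ∀ i, u i ^ (K i * m i) = 1)
    (hcop : ∀ i j, i ≠ j → Nat.Coprime (m i) (K j * m j)) {r : ℕ}
    (hr : ∀ i, Nat.Coprime (m i) r) (h : (∏ i, u i) ^ r = 1) (i : ι) : u i ^ K i = 1 := by
  set M := ∏ j ∈ univ.erase i, K j * m j with hM
  have h2 : (u i) ^ (r * M) = 1 := by
    have h3 : (∏ j, u j) ^ (r * M) = 1 := by rw [pow_mul, h, one_pow]
    rw [← Finset.mul_prod_erase univ u (mem_univ i), mul_pow] at h3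
    have h4 : (∏ j ∈ univ.erase i, u j) ^ (r * M) = 1 := by
      rw [← Finset.prod_pow]
      refine Finset.prod_eq_one fun j hj => ?_
      obtain ⟨e, he⟩ := (Finset.dvd_prod_of_mem (fun j => K j * m j) hj).mul_left r
      rw [← hM] at he
      rw [he, pow_mul, h1, one_pow]
    rwa [h4, mul_one] at h3
  have h5 : Nat.Coprime (orderOf (u i)) (m i) := by
    have h6 : Nat.Coprime (r * M) (m i) := by
      refine Nat.Coprime.mul_left (hr i).symm ?_
      exact Nat.Coprime.prod_left fun j hj => (hcop i j (Finset.ne_of_mem_erase hj).symm).symm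
    exact Nat.Coprime.coprime_dvd_left (orderOf_dvd_of_pow_eq_one h2) h6
  exact orderOf_dvd_iff_pow_eq_one.1
    (h5.dvd_of_dvd_mul_right (orderOf_dvd_of_pow_eq_one (h1 i)))

end Pool.Agent.TH943.TP
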