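import Pool.Agent.TH943.TP.Eig
import Pool.Agent.TH943.TP.Lin

/-!
No Tate classes on the part of the nontrivial characters.
-/

set_option autoImplicit false
set_option maxHeartbeats 1000000

open Finset Polynomial

namespace Pool.Agent.TH943.TP

theorem no_tate {p : ℕ} (hp : p.Prime) {q : ℕ}
    (hq : ∀ (k : Type) [Field k] [CharP k p], ((q : ℕ) : k) = 1)
    {K m : ℕ} {E : Type} [Field E] [CharZero E]
    [IsAlgClosed E] {M : Type} [AddCommGroup M] [Module E M] [FiniteDimensional E M]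
    (Φ : Module.End E M)
    (heig : ∀ (k : Type) [Field k] [CharP k p] (θ : (integralClosure ℤ E).toSubring →+* k)
        (α : E) (w : M), w ≠ 0 → Φ w = α • w → ∃ x : (integralClosure ℤ E).toSubring,
          (x : E) = α ∧ θ x ^ (K * m) = 1 ∧ θ x ^ K ≠ 1)
    {r j : ℕ} (hr : Nat.Coprime m r) {x : M} (hx : (Φ ^ r) x = (q : E) ^ j • x) : x = 0 := by
  classical
  by_contra hx0
  set V := Module.End.eigenspace (Φ ^ r) ((q : E) ^ j) with hV
  have hmap : ∀ v ∈ V, Φ v ∈ V := by
    intro v hv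
    rw [hV, Module.End.mem_eigenspace_iff] at hv ⊢
    have h12 : (Φ ^ r) (Φ v) = Φ ((Φ ^ r) v) := by
      rw [← Module.End.mul_apply, ← pow_succ, pow_succ', Module.End.mul_apply]
    rw [h12, hv, map_smul]
  have hnt : Nontrivial V :=
    ⟨⟨⟨x, Module.End.mem_eigenspace_iff.2 hx⟩, 0, fun h0 => hx0 (congrArg Subtype.val h0)⟩⟩
  obtain ⟨α, hα⟩ := Module.End.exists_eigenvalue (Φ.restrict hmap)
  obtain ⟨w, hw⟩ := hα.exists_hasEigenvector
  have hΦw : Φ w.1 = α • w.1 := congrArg Subtype.val hw.apply_eq_smul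
  have hw0 : w.1 ≠ 0 := fun h0 => hw.2 (Subtype.ext h0)
  have hpow : α ^ r = (q : E) ^ j := by
    have h12 : ∀ l : ℕ, (Φ ^ l) w.1 = α ^ l • w.1 := by
      intro l
      induction l with
      | zero => rw [pow_zero, pow_zero, one_smul, Module.End.one_apply]
      | succ l ih => rw [pow_succ', Module.End.mul_apply, ih, map_smul, hΦw, smul_smul, ← pow_succ]
    have h13 := Module.End.mem_eigenspace_iff.1 w.2
    rw [h12] at h13
    exact smul_left_injective E hw0 h13
  obtain ⟨k, _, _, ⟨θ⟩⟩ := Pool.Agent.W804.HS.RD.main E p hp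
  obtain ⟨y, hy1, hy2, hy3⟩ := heig k θ α w.1 hw0 hΦw
  have h1 : y ^ r = (q : (integralClosure ℤ E).toSubring) ^ j := by
    apply Subtype.ext
    push_cast
    rw [hy1, hpow]
  have h2 : θ y ^ r = 1 := by
    have h3 := congrArg θ h1
    rw [map_pow, map_pow, map_natCast, hq k, one_pow] at h3
    exact h3
  apply hy3
  have h5 : Nat.Coprime (orderOf (θ y)) m :=
    Nat.Coprime.coprime_dvd_left (orderOf_dvd_of_pow_eq_one h2) hr.symm
  exact orderOf_dvd_iff_pow_eq_one.1
    (h5.dvd_of_dvd_mul_right (orderOf_dvd_of_pow_eq_one hy2))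

end Pool.Agent.TH943.TP
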