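import Pool.Agent.TH943.TP.Tm

/-!
Products of an arbitrary variety with open coverings: comparison with the bases.
-/

set_option autoImplicit false
set_option maxHeartbeats 1000000

open Finset Polynomial TensorProduct

namespace Pool.Agent.TH943.TP

/-- eigenvectors, with their eigenvalues -/
abbrev EV {E L : Type} [Field E] [AddCommGroup L] [Module E L] (Ψ : Module.End E L) : Type :=
  {x : E × L // x.2 ≠ 0 ∧ Ψ x.2 = x.1 • x.2}

theorem span_ev {E L : Type} [Field E] [IsAlgClosed E] [AddCommGroup L] [Module E L]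
    [FiniteDimensional E L] (Ψ : Module.End E L) (h : Ψ.IsSemisimple) :
    Submodule.span E (Set.range fun x : EV Ψ => x.1.2) = ⊤ := by
  rw [eq_top_iff, ← h.iSup_eigenspace_eq_top]
  refine iSup_le fun μ => ?_
  intro v hv
  by_cases hv0 : v = 0
  · rw [hv0]
    exact Submodule.zero_mem _
  · exact Submodule.subset_span ⟨⟨(μ, v), hv0, Module.End.mem_eigenspace_iff.1 hv⟩, rfl⟩

theorem maxGen_of_span' {E T A : Type*} [Field E] [AddCommGroup T] [Module E T]
    (F : Module.End E T) (g : A → T) (c : A → E) (hg : ∀ a, g a ∈ F.maxGenEigenspace (c a))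
    (hspan : Submodule.span E (Set.range g) = ⊤) (μ : E) :
    F.maxGenEigenspace μ = Submodule.span E (g '' {a | c a = μ}) := by
  rw [← maxGen_inf_span F g c hg μ, hspan, inf_top_eq]

/-- generalized eigenspaces on a tensor product -/
theorem tensor_maxGen {E V T B : Type} [Field E] [IsAlgClosed E] [AddCommGroup V] [Module E V]
    [FiniteDimensional E V] [AddCommGroup T] [Module E T] (Z : Module.End E V)
    (F : Module.End E T) (tt : B → T) (c : B → E) (htt : ∀ a, F (tt a) = c a • tt a)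
    (hspanT : Submodule.span E (Set.range tt) = ⊤) (r : ℕ) (μ : E) :
    Module.End.maxGenEigenspace ((TensorProduct.map Z F : Module.End E (V ⊗[E] T)) ^ r) μ =
      Submodule.span E {t | ∃ (ν : E) (z : V) (a : B), z ≠ 0 ∧ z ∈ (Z ^ r).maxGenEigenspace ν ∧
        ν * c a ^ r = μ ∧ z ⊗ₜ[E] tt a = t} := by
  have hF : ((TensorProduct.map Z F : Module.End E (V ⊗[E] T)) ^ r) =
      TensorProduct.map (Z ^ r) (F ^ r) := by
    rw [TensorProduct.map_pow]
  have hspanV : Submodule.span E (Set.range fun z : {y : E × V // y.2 ≠ 0 ∧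
      y.2 ∈ (Z ^ r).maxGenEigenspace y.1} => z.1.2) = ⊤ := by
    rw [eq_top_iff, ← Module.End.iSup_maxGenEigenspace_eq_top (Z ^ r)]
    refine iSup_le fun ν => ?_
    intro z hz
    by_cases hz0 : z = 0
    · rw [hz0]
      exact Submodule.zero_mem _
    · exact Submodule.subset_span ⟨⟨(ν, z), hz0, hz⟩, rfl⟩
  have hspan : Submodule.span E (Set.range fun ab : {y : E × V // y.2 ≠ 0 ∧
      y.2 ∈ (Z ^ r).maxGenEigenspace y.1} × B => ab.1.1.2 ⊗ₜ[E] (tt ab.2)) = ⊤ := by
    rw [eq_top_iff, ← TensorProduct.map₂_mk_top_top_eq_top, ← hspanV, ← hspanT,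
      Submodule.map₂_span_span]
    refine Submodule.span_mono ?_
    rintro _ ⟨_, ⟨a, rfl⟩, _, ⟨b, rfl⟩, rfl⟩
    exact ⟨(a, b), rfl⟩
  rw [hF, maxGen_of_span' _ (fun ab : {y : E × V // y.2 ≠ 0 ∧
      y.2 ∈ (Z ^ r).maxGenEigenspace y.1} × B => ab.1.1.2 ⊗ₜ[E] (tt ab.2))
    (fun ab => ab.1.1.1 * c ab.2 ^ r)
    (fun ab => tmul_maxGen _ _ ab.1.2.2 (pow_eig F (htt ab.2) r)) hspan]
  congr 1
  ext t
  constructor
  · rintro ⟨⟨⟨⟨ν, z⟩, hz0, hz⟩, a⟩, ha, rfl⟩
    exact ⟨ν, z, a, hz0, hz, ha, rfl⟩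
  · rintro ⟨ν, z, a, hz0, hz, ha, rfl⟩
    exact ⟨(⟨(ν, z), hz0, hz⟩, a), ha, rfl⟩

/-- semisimplicity on a tensor product -/
theorem tensor_ss {E V T B : Type} [Field E] [IsAlgClosed E] [CharZero E] [AddCommGroup V]
    [Module E V] [FiniteDimensional E V] [AddCommGroup T] [Module E T] (Z : Module.End E V)
    (hZ : Z.IsSemisimple)
    (F : Module.End E T) (tt : B → T) (c : B → E) (htt : ∀ a, F (tt a) = c a • tt a)
    (hspanT : Submodule.span E (Set.range tt) = ⊤) (r : ℕ) (μ : E) (x : V ⊗[E] T)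
    (hx : x ∈ Module.End.maxGenEigenspace
      ((TensorProduct.map Z F : Module.End E (V ⊗[E] T)) ^ r) μ) :
    ((TensorProduct.map Z F : Module.End E (V ⊗[E] T)) ^ r) x = μ • x := by
  have hZr : (Z ^ r).IsSemisimple := hZ.pow r
  rw [tensor_maxGen Z F tt c htt hspanT r μ] at hx
  have h1 : Submodule.span E {t | ∃ (ν : E) (z : V) (a : B), z ≠ 0 ∧
      z ∈ (Z ^ r).maxGenEigenspace ν ∧ ν * c a ^ r = μ ∧ z ⊗ₜ[E] tt a = t} ≤
      Module.End.eigenspace ((TensorProduct.map Z F : Module.End E (V ⊗[E] T)) ^ r) μ := by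
    refine Submodule.span_le.2 ?_
    rintro _ ⟨ν, z, a, hz0, hz, ha, rfl⟩
    rw [hZr.isFinitelySemisimple.maxGenEigenspace_eq_eigenspace] at hz
    refine Module.End.mem_eigenspace_iff.2 ?_
    rw [TensorProduct.map_pow, TensorProduct.map_tmul, pow_eig F (htt _) r,
      Module.End.mem_eigenspace_iff.1 hz, TensorProduct.smul_tmul_smul, ha]
  exact Module.End.mem_eigenspace_iff.1 (h1 hx)

/-- the eigenvalue of a generator -/
def vl {E L W : Type} [Field E] [AddCommGroup L] [Module E L] [AddCommGroup W] [Module E W]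
    (Ψ : Module.End E L) (Φ : Module.End E W) : EV Ψ ⊕ EV Φ → E
  | .inl x => x.1.1
  | .inr x => x.1.1

/-- eigenvectors of a sum -/
def gr {E L W : Type} [Field E] [AddCommGroup L] [Module E L] [AddCommGroup W] [Module E W]
    (Ψ : Module.End E L) (Φ : Module.End E W) : EV Ψ ⊕ EV Φ → L × W
  | .inl x => (x.1.2, 0)
  | .inr x => (0, x.1.2)

theorem gr_val {E L W : Type} [Field E] [AddCommGroup L] [Module E L] [AddCommGroup W]
    [Module E W] (Ψ : Module.End E L) (Φ : Module.End E W) (a : EV Ψ ⊕ EV Φ) :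
    LinearMap.prodMap Ψ Φ (gr Ψ Φ a) = vl Ψ Φ a • gr Ψ Φ a := by
  rcases a with x | x
  · show ((Ψ x.1.2, Φ 0) : L × W) = (x.1.1 • x.1.2, x.1.1 • 0)
    rw [map_zero, smul_zero, x.2.2]
  · show ((Ψ 0, Φ x.1.2) : L × W) = (x.1.1 • 0, x.1.1 • x.1.2)
    rw [map_zero, smul_zero, x.2.2]

theorem gr_span {E L W : Type} [Field E] [IsAlgClosed E] [AddCommGroup L] [Module E L]
    [FiniteDimensional E L] [AddCommGroup W] [Module E W] [FiniteDimensional E W]
    (Ψ : Module.End E L) (Φ : Module.End E W) (hΨ : Ψ.IsSemisimple) (hΦ : Φ.IsSemisimple) :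
    Submodule.span E (Set.range (gr Ψ Φ)) = ⊤ := by
  rw [eq_top_iff]
  rintro ⟨v, w⟩ -
  have h1 : v ∈ (Submodule.span E (Set.range (gr Ψ Φ))).comap (LinearMap.inl E L W) := by
    have h2 : (⊤ : Submodule E L) ≤
        (Submodule.span E (Set.range (gr Ψ Φ))).comap (LinearMap.inl E L W) := by
      rw [← span_ev Ψ hΨ]
      refine Submodule.span_le.2 ?_
      rintro _ ⟨x, rfl⟩
      exact Submodule.subset_span ⟨Sum.inl x, rfl⟩
    exact h2 Submodule.mem_top
  have h3 : w ∈ (Submodule.span E (Set.range (gr Ψ Φ))).comap (LinearMap.inr E L W) := by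
    have h2 : (⊤ : Submodule E W) ≤
        (Submodule.span E (Set.range (gr Ψ Φ))).comap (LinearMap.inr E L W) := by
      rw [← span_ev Φ hΦ]
      refine Submodule.span_le.2 ?_
      rintro _ ⟨x, rfl⟩
      exact Submodule.subset_span ⟨Sum.inr x, rfl⟩
    exact h2 Submodule.mem_top
  have h4 := Submodule.add_mem _ (Submodule.mem_comap.1 h1) (Submodule.mem_comap.1 h3)
  have h5 : (LinearMap.inl E L W v + LinearMap.inr E L W w : L × W) = (v, w) := by
    simp
  rw [h5] at h4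
  exact h4

/-- products of open coverings with an arbitrary space -/
theorem open_main {p : ℕ} (hp : p.Prime) {q : ℕ} (hq1 : 1 < q)
    (hq : ∀ (k : Type) [Field k] [CharP k p], ((q : ℕ) : k) = 1)
    {ι : Type} [Fintype ι] [DecidableEq ι] (K m : ι → ℕ)
    (hcop : ∀ i j, i ≠ j → Nat.Coprime (m i) (K j * m j)) {E : Type} [Field E] [CharZero E]
    [IsAlgClosed E] {L W : ι → Type} [∀ i, AddCommGroup (L i)] [∀ i, Module E (L i)]
    [∀ i, AddCommGroup (W i)] [∀ i, Module E (W i)]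
    (Ψ : ∀ i, Module.End E (L i)) (Φ : ∀ i, Module.End E (W i))
    (heigL : ∀ i, ∀ (k : Type) [Field k] [CharP k p] (θ : (integralClosure ℤ E).toSubring →+* k)
        (α : E) (w : L i), w ≠ 0 → Ψ i w = α • w → ∃ x : (integralClosure ℤ E).toSubring,
          (x : E) = α ∧ θ x ^ (K i * m i) = 1)
    (heigW : ∀ i, ∀ (k : Type) [Field k] [CharP k p] (θ : (integralClosure ℤ E).toSubring →+* k)
        (α : E) (w : W i), w ≠ 0 → Φ i w = α • w → ∃ x : (integralClosure ℤ E).toSubring,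
          (x : E) = α ∧ θ x ^ (K i * m i) = 1 ∧ θ x ^ K i ≠ 1)
    {T T0 : Type} [AddCommGroup T] [Module E T] [AddCommGroup T0] [Module E T0]
    (F : Module.End E T) (F0 : Module.End E T0) (π : T0 →ₗ[E] T)
    (tt : (∀ i, EV (Ψ i) ⊕ EV (Φ i)) → T)
    (htt : ∀ a, F (tt a) = (∏ i, vl (Ψ i) (Φ i) (a i)) • tt a)
    (hspanT : Submodule.span E (Set.range tt) = ⊤)
    (tt0 : (∀ i, EV (Ψ i)) → T0) (htt0 : ∀ a, F0 (tt0 a) = (∏ i, (a i).1.1) • tt0 a)
    (hspanT0 : Submodule.span E (Set.range tt0) = ⊤)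
    (hπ : ∀ a, π (tt0 a) = tt fun i => Sum.inl (a i))
    {V : Type} [AddCommGroup V] [Module E V] [FiniteDimensional E V] (Z : Module.End E V) {e : ℕ}
    (hZ : ∀ (k : Type) [Field k] [CharP k p] (θ : (integralClosure ℤ E).toSubring →+* k)
        (β : E) (w : V), w ≠ 0 → Z w = β • w → ∃ x : (integralClosure ℤ E).toSubring,
          (x : E) = β ∧ θ x ^ e = 1)
    (he : ∀ i, Nat.Coprime (m i) e)
    {r : ℕ} (hr : ∀ i, Nat.Coprime (m i) r) (j : ℤ) :
    Module.End.maxGenEigenspace ((TensorProduct.map Z F : Module.End E (V ⊗[E] T)) ^ r)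
        ((q : E) ^ ((r : ℤ) * j)) =
      (Module.End.maxGenEigenspace ((TensorProduct.map Z F0 : Module.End E (V ⊗[E] T0)) ^ r)
        ((q : E) ^ ((r : ℤ) * j))).map (LinearMap.lTensor V π) := by
  classical
  have hq0 : (q : E) ≠ 0 := by
    have : q ≠ 0 := by omega
    exact_mod_cast this
  rw [tensor_maxGen Z F tt _ htt hspanT, tensor_maxGen Z F0 tt0 _ htt0 hspanT0,
    Submodule.map_span]
  refine le_antisymm (Submodule.span_mono ?_) (Submodule.span_mono ?_)
  · rintro _ ⟨ν, z, a, hz0, hz, ha, rfl⟩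
    obtain ⟨β, w, hw0, hβ, hβr⟩ := eig_of_pow Z r hz0 hz
    obtain ⟨k, _, _, ⟨θ⟩⟩ := Pool.Agent.W804.HS.RD.main E p hp
    have hx : ∀ i, ∃ x : (integralClosure ℤ E).toSubring, (x : E) = vl (Ψ i) (Φ i) (a i) ∧
        θ x ^ (K i * m i) = 1 ∧ (∀ y, a i = Sum.inr y → θ x ^ K i ≠ 1) := by
      intro i
      rcases h : a i with y | y
      · obtain ⟨x, hx1, hx2⟩ := heigL i k θ y.1.1 y.1.2 y.2.1 y.2.2
        refine ⟨x, hx1, hx2, ?_⟩
        intro y' hy'
        exact absurd hy' (by simp)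
      · obtain ⟨x, hx1, hx2, hx3⟩ := heigW i k θ y.1.1 y.1.2 y.2.1 y.2.2
        exact ⟨x, hx1, hx2, fun _ _ => hx3⟩
    choose x hx1 hx2 hx3 using hx
    obtain ⟨y, hy1, hy2⟩ := hZ k θ β w hw0 hβ
    obtain ⟨c, d, hcd⟩ : ∃ c d : ℕ, (r : ℤ) * j = (c : ℤ) - (d : ℤ) :=
      ⟨((r : ℤ) * j).toNat, (-((r : ℤ) * j)).toNat, by omega⟩
    have h1 : y ^ r * (∏ i, x i) ^ r * (q : (integralClosure ℤ E).toSubring) ^ d =
        (q : (integralClosure ℤ E).toSubring) ^ c := by
      apply Subtype.ext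
      push_cast
      rw [hcd, zpow_sub₀ hq0, eq_div_iff (zpow_ne_zero _ hq0), zpow_natCast, zpow_natCast] at ha
      rw [← ha, hy1, hβr]
      congr 2
      congr 1
      exact Finset.prod_congr rfl fun i _ => hx1 i
    have h2 : θ y ^ r * (∏ i, θ (x i)) ^ r = 1 := by
      have h3 := congrArg θ h1
      rw [map_mul, map_mul, map_pow, map_pow, map_prod, map_pow, map_pow, map_natCast, hq k,
        one_pow, one_pow, mul_one] at h3
      exact h3
    have h3 := order_dvd (ι := Option ι) (fun o => o.elim (θ y) fun i => θ (x i))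
      (fun o => o.elim e K) (fun o => o.elim 1 m)
      (by
        rintro (_ | i)
        · show θ y ^ (e * 1) = 1
          rw [mul_one]
          exact hy2
        · exact hx2 i)
      (by
        rintro (_ | i) (_ | l) hil
        · exact absurd rfl hil
        · exact Nat.coprime_one_left _
        · show Nat.Coprime (m i) (e * 1)
          rw [mul_one]
          exact he i
        · exact hcop i l fun h => hil (congrArg some h))
      (r := r)
      (by
        rintro (_ | i)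
        · exact Nat.coprime_one_left _
        · exact hr i)
      (by
        rw [Fintype.prod_option, mul_pow]
        exact h2)
    have h4 : ∀ i, ∃ l, a i = Sum.inl l := by
      intro i
      rcases h : a i with l | y
      · exact ⟨l, rfl⟩
      · exact absurd (h3 (some i)) (hx3 i y h)
    choose l hl using h4
    obtain rfl : a = fun i => Sum.inl (l i) := funext hl
    refine ⟨z ⊗ₜ[E] tt0 l, ⟨ν, z, l, hz0, hz, ha, rfl⟩, ?_⟩
    rw [LinearMap.lTensor_tmul, hπ]
  · rintro _ ⟨_, ⟨ν, z, l, hz0, hz, ha, rfl⟩, rfl⟩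
    refine ⟨ν, z, fun i => Sum.inl (l i), hz0, hz, ha, ?_⟩
    rw [LinearMap.lTensor_tmul, hπ]

/-- eigenvalues which are roots of unity times powers of `q` -/
theorem eig_linear {p q : ℕ} (hq : ∀ (k : Type) [Field k] [CharP k p], ((q : ℕ) : k) = 1)
    {E L : Type} [Field E] [AddCommGroup L] [Module E L] (Ψ : Module.End E L) {M : ℕ}
    (hM : 0 < M)
    (h : ∀ (β : E) (v : L), v ≠ 0 → Ψ v = β • v → ∃ (a : ℕ) (ζ : E), ζ ^ M = 1 ∧
      β = (q : E) ^ a * ζ) (k : Type) [Field k] [CharP k p]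
    (θ : (integralClosure ℤ E).toSubring →+* k) (β : E) (v : L) (hv : v ≠ 0)
    (hβ : Ψ v = β • v) : ∃ x : (integralClosure ℤ E).toSubring, (x : E) = β ∧ θ x ^ M = 1 := by
  obtain ⟨a, ζ, hζ, rfl⟩ := h β v hv hβ
  have hint : IsIntegral ℤ ζ := by
    refine IsIntegral.of_pow hM ?_
    rw [hζ]
    exact isIntegral_one
  set y : (integralClosure ℤ E).toSubring := ⟨ζ, hint⟩ with hy
  refine ⟨(q : (integralClosure ℤ E).toSubring) ^ a * y, ?_, ?_⟩
  · push_cast
    rfl
  · have h1 : y ^ M = 1 := Subtype.ext (by push_cast; exact hζ)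
    rw [map_mul, map_pow, map_natCast, hq k, one_pow, one_mul, ← map_pow, h1, map_one]

end Pool.Agent.TH943.TP
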