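import Pool.Agent.TH943.TP.Eig
import Pool.Agent.TH943.TP.Lin

/-!
Tate classes on products.
-/

set_option autoImplicit false
set_option maxHeartbeats 1000000

open Finset Polynomial TensorProduct

namespace Pool.Agent.TH943.TP

section gen

variable {E W : Type} [Field E] [AddCommGroup W] [Module E W]

/-- Frobenius on the sum of the cohomology of projective space of dimension `N` and of `W` -/
noncomputable def tot (q N : ℕ) (Φ : Module.End E W) : Module.End E ((Fin (N + 1) → E) × W) :=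
  LinearMap.prodMap (LinearMap.pi fun k => ((q : E) ^ (k : ℕ)) • LinearMap.proj k) Φ

/-- indices of eigenvectors -/
abbrev Gen (N : ℕ) (Φ : Module.End E W) : Type :=
  Fin (N + 1) ⊕ {x : E × W // x.2 ≠ 0 ∧ Φ x.2 = x.1 • x.2}

/-- eigenvectors -/
def gen (N : ℕ) (Φ : Module.End E W) : Gen N Φ → (Fin (N + 1) → E) × W
  | .inl k => (Pi.single k 1, 0)
  | .inr x => (0, x.1.2)

/-- eigenvalues -/
def val (q N : ℕ) (Φ : Module.End E W) : Gen N Φ → E
  | .inl k => (q : E) ^ (k : ℕ)
  | .inr x => x.1.1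

theorem tot_gen (q N : ℕ) (Φ : Module.End E W) (a : Gen N Φ) :
    tot q N Φ (gen N Φ a) = val q N Φ a • gen N Φ a := by
  rcases a with k | x
  · show ((fun l => ((q : E) ^ (l : ℕ)) • (Pi.single k (1 : E) : Fin (N + 1) → E) l, Φ 0) :
      (Fin (N + 1) → E) × W) = (((q : E) ^ (k : ℕ)) • (Pi.single k (1 : E)), _ • 0)
    rw [map_zero, smul_zero]
    congr 1
    ext l
    rw [Pi.smul_apply]
    by_cases hl : l = k
    · rw [hl]
    · rw [Pi.single_eq_of_ne hl, smul_zero, smul_zero]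
  · show ((fun l => ((q : E) ^ (l : ℕ)) • (0 : Fin (N + 1) → E) l, Φ x.1.2) :
      (Fin (N + 1) → E) × W) = (x.1.1 • 0, x.1.1 • x.1.2)
    rw [x.2.2, smul_zero]
    congr 1
    ext l
    rw [Pi.zero_apply, smul_zero]

theorem span_gen [IsAlgClosed E] [FiniteDimensional E W] (N : ℕ) (Φ : Module.End E W)
    (h : Φ.IsSemisimple) : Submodule.span E (Set.range (gen N Φ)) = ⊤ := by
  rw [eq_top_iff]
  rintro ⟨c, w⟩ -
  have h1 : ((c, w) : (Fin (N + 1) → E) × W) = LinearMap.inl E _ _ c + LinearMap.inr E _ _ w := by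
    simp
  rw [h1]
  refine Submodule.add_mem _ ?_ ?_
  · have h2 : c = ∑ k, c k • (Pi.single k (1 : E) : Fin (N + 1) → E) := by
      conv_lhs => rw [← Finset.univ_sum_single c]
      refine Finset.sum_congr rfl fun k _ => ?_
      rw [← Pi.single_smul, smul_eq_mul, mul_one]
    rw [h2, map_sum]
    refine Submodule.sum_mem _ fun k _ => ?_
    rw [map_smul]
    exact Submodule.smul_mem _ _ (Submodule.subset_span ⟨Sum.inl k, rfl⟩)
  · have h2 : (⊤ : Submodule E W) ≤
        (Submodule.span E (Set.range (gen N Φ))).comap (LinearMap.inr E (Fin (N + 1) → E) W) := by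
      rw [← h.iSup_eigenspace_eq_top]
      refine iSup_le fun μ => ?_
      intro v hv
      rw [Submodule.mem_comap]
      by_cases hv0 : v = 0
      · rw [hv0, map_zero]
        exact Submodule.zero_mem _
      · exact Submodule.subset_span
          ⟨Sum.inr ⟨(μ, v), hv0, Module.End.mem_eigenspace_iff.1 hv⟩, rfl⟩
    exact h2 Submodule.mem_top

end gen

theorem prod_main {p : ℕ} (hp : p.Prime) {q : ℕ} (hq1 : 1 < q)
    (hq : ∀ (k : Type) [Field k] [CharP k p], ((q : ℕ) : k) = 1)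
    {ι : Type} [Fintype ι] [DecidableEq ι] (N K m : ι → ℕ)
    (hcop : ∀ i j, i ≠ j → Nat.Coprime (m i) (K j * m j)) {E : Type} [Field E] [CharZero E]
    [IsAlgClosed E] {W : ι → Type} [∀ i, AddCommGroup (W i)] [∀ i, Module E (W i)]
    [∀ i, FiniteDimensional E (W i)] (Φ : ∀ i, Module.End E (W i))
    (hss : ∀ i, (Φ i).IsSemisimple)
    (heig : ∀ i, ∀ (k : Type) [Field k] [CharP k p] (θ : (integralClosure ℤ E).toSubring →+* k)
        (α : E) (w : W i), w ≠ 0 → Φ i w = α • w → ∃ x : (integralClosure ℤ E).toSubring,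
          (x : E) = α ∧ θ x ^ (K i * m i) = 1 ∧ θ x ^ K i ≠ 1)
    {r : ℕ} (hr0 : 0 < r) (hr : ∀ i, Nat.Coprime (m i) r) (j : ℕ) :
    Module.End.maxGenEigenspace ((PiTensorProduct.map (fun i => tot q (N i) (Φ i)) :
        Module.End E (⨂[E] i, ((Fin (N i + 1) → E) × W i))) ^ r) ((q : E) ^ (r * j)) =
      Submodule.span E ((fun k : ∀ i, Fin (N i + 1) =>
        ⨂ₜ[E] i, ((Pi.single (k i) 1, 0) : (Fin (N i + 1) → E) × W i)) ''
          {k | ∑ i, (k i : ℕ) = j}) := by
  rw [maxGen_tensor (fun i => tot q (N i) (Φ i)) (fun i => gen (N i) (Φ i))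
    (fun i => val q (N i) (Φ i)) (fun i => tot_gen q (N i) (Φ i))
    (fun i => span_gen (N i) (Φ i) (hss i)) r]
  congr 1
  have hpow : ∀ (k : ∀ i, Fin (N i + 1)),
      (∏ i, val q (N i) (Φ i) (Sum.inl (k i))) ^ r = (q : E) ^ (r * ∑ i, (k i : ℕ)) := by
    intro k
    have h1 : (∏ i, val q (N i) (Φ i) (Sum.inl (k i))) = ∏ i, (q : E) ^ (k i : ℕ) := rfl
    rw [h1, Finset.prod_pow_eq_pow_sum, ← pow_mul, mul_comm]
  ext t
  constructor
  · rintro ⟨a, ha, rfl⟩
    have ha' : (∏ i, val q (N i) (Φ i) (a i)) ^ r = (q : E) ^ (r * j) := ha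
    obtain ⟨k, _, _, ⟨θ⟩⟩ := Pool.Agent.W804.HS.RD.main E p hp
    have hx : ∀ i, ∃ x : (integralClosure ℤ E).toSubring, (x : E) = val q (N i) (Φ i) (a i) ∧
        θ x ^ (K i * m i) = 1 ∧ (∀ y, a i = Sum.inr y → θ x ^ K i ≠ 1) := by
      intro i
      rcases h : a i with l | y
      · refine ⟨(q : (integralClosure ℤ E).toSubring) ^ (l : ℕ), ?_, ?_, ?_⟩
        · push_cast
          rfl
        · rw [map_pow, map_natCast, hq k, one_pow, one_pow]
        · intro y hy
          exact absurd hy (by simp)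
      · obtain ⟨x, hx1, hx2, hx3⟩ := heig i k θ y.1.1 y.1.2 y.2.1 y.2.2
        exact ⟨x, hx1, hx2, fun _ _ => hx3⟩
    choose x hx1 hx2 hx3 using hx
    have h1 : (∏ i, x i) ^ r = (q : (integralClosure ℤ E).toSubring) ^ (r * j) := by
      apply Subtype.ext
      push_cast
      rw [← ha']
      congr 1
      exact Finset.prod_congr rfl fun i _ => hx1 i
    have h2 : (∏ i, θ (x i)) ^ r = 1 := by
      have h3 := congrArg θ h1
      rw [map_pow, map_prod, map_pow, map_natCast, hq k, one_pow] at h3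
      exact h3
    have h3 := order_dvd (fun i => θ (x i)) K m hx2 hcop hr h2
    have h4 : ∀ i, ∃ l, a i = Sum.inl l := by
      intro i
      rcases h : a i with l | y
      · exact ⟨l, rfl⟩
      · exact absurd (h3 i) (hx3 i y h)
    choose l hl using h4
    obtain rfl : a = fun i => Sum.inl (l i) := funext hl
    refine ⟨l, ?_, rfl⟩
    rw [hpow l] at ha'
    have h5 : q ^ (r * ∑ i, (l i : ℕ)) = q ^ (r * j) := by exact_mod_cast ha'
    exact Nat.eq_of_mul_eq_mul_left hr0 (Nat.pow_right_injective hq1 h5)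
  · rintro ⟨l, hl, rfl⟩
    refine ⟨fun i => Sum.inl (l i), ?_, rfl⟩
    show (∏ i, val q (N i) (Φ i) (Sum.inl (l i))) ^ r = _
    rw [hpow l]
    have hl' : ∑ i, (l i : ℕ) = j := hl
    rw [hl']

end Pool.Agent.TH943.TP
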