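import Pool.Agent.TH943.SP.Main

/-!
Reductions of the eigenvalues of Frobenius on the parts of the nontrivial characters, for a given
place.
-/

set_option autoImplicit false
set_option maxHeartbeats 1000000

open Finset Polynomial

namespace Pool.Agent.TH943.TP

open Pool.Agent.W528.HS Pool.Agent.W528.HA Pool.Agent.TH117.HS Pool.Agent.TH943.IP
  Pool.Agent.TH943.SP

/-- Congruence between the characteristic polynomial of Frobenius on the part of a character of
prime power order and the zeta function of the complement of the branch divisor, for a given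
homomorphism `θ`. -/
theorem congr_of {p s : ℕ} (hp : p.Prime)
    (κ : Type) [Field κ] [Fintype κ] {z : κ} (hz : IsPrimitiveRoot z (p ^ s)) {n : ℕ}
    (F : MvPolynomial (Fin (n + 1)) κ) {E : Type} [Field E] [CharZero E] [IsAlgClosed E]
    {μ : E} (hμ : IsPrimitiveRoot μ (p ^ s)) (B₁ B₂ : Multiset E)
    (hB₁ : ∀ x ∈ B₁, IsIntegral ℤ x) (hB₂ : ∀ x ∈ B₂, IsIntegral ℤ x)
    (hU : ∀ (L : Type) [Field L] [Fintype L] [Algebra κ L],
      (projOpen L (F.map (algebraMap κ L)) : E)
        = (B₁.map fun x => x ^ Module.finrank κ L).sum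
          - (B₂.map fun x => x ^ Module.finrank κ L).sum)
    {W : Type} [AddCommGroup W] [Module E W] [FiniteDimensional E W] (Φ : Module.End E W)
    (hΦ : ∀ (L : Type) [Field L] [Fintype L] [Algebra κ L],
      (-1) ^ n * LinearMap.trace E W (Φ ^ Module.finrank κ L)
        = projSum L E (p ^ s) (F.map (algebraMap κ L)) (algebraMap κ L z) μ)
    (k : Type) [Field k] [CharP k p] (θ : (integralClosure ℤ E).toSubring →+* k) :
    ∃ (A' B₁' B₂' : Multiset (integralClosure ℤ E).toSubring),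
      A'.map Subtype.val = Φ.charpoly.roots ∧ B₁'.map Subtype.val = B₁ ∧
      B₂'.map Subtype.val = B₂ ∧
      (Even n → (A'.map fun x => 1 - C (θ x) * X).prod * (B₂'.map fun x => 1 - C (θ x) * X).prod
        = (B₁'.map fun x => 1 - C (θ x) * X).prod) ∧
      (Odd n → (A'.map fun x => 1 - C (θ x) * X).prod * (B₁'.map fun x => 1 - C (θ x) * X).prod
        = (B₂'.map fun x => 1 - C (θ x) * X).prod) := by
  classical
  have hN : 0 < p ^ s := pow_pos hp.pos s
  obtain ⟨a, ha⟩ := Pool.Agent.W715.HS.OC.main κ (p ^ s) z hN hz (n + 1) F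
  obtain ⟨c, hc⟩ := CharP.exists κ
  have hcp : Fact c.Prime := ⟨CharP.char_is_prime κ c⟩
  have hext : ∀ m, 1 ≤ m → ∃ (L : Type) (_ : Field L) (_ : Fintype L) (_ : Algebra κ L),
      Module.finrank κ L = m := by
    intro m hm
    have : NeZero m := ⟨by omega⟩
    let _ : Fintype (FiniteField.Extension κ c m) := Fintype.ofFinite _
    exact ⟨FiniteField.Extension κ c m, inferInstance, inferInstance, inferInstance,
      FiniteField.finrank_extension κ c m⟩
  have hS : ∀ m, 1 ≤ m → orbSum (p ^ s) μ a m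
      = (((-1) ^ n : ℤ) : E) * (Φ.charpoly.roots.map fun x => x ^ m).sum := by
    intro m hm
    obtain ⟨L, _, _, _, hL⟩ := hext m hm
    have h1 := (ha L).1 E μ hμ.pow_eq_one
    rw [hL] at h1
    have h2 := hΦ L
    rw [hL] at h2
    rw [← h1, ← h2, Pool.Agent.W63.HS.TR.main E W Φ m]
    push_cast
    ring
  have hU' : ∀ m, 1 ≤ m → orbSum (p ^ s) (1 : E) a m
      = (B₁.map fun x => x ^ m).sum - (B₂.map fun x => x ^ m).sum := by
    intro m hm
    obtain ⟨L, _, _, _, hL⟩ := hext m hm
    have h1 := (ha L).2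
    rw [hL] at h1
    have h2 := hU L
    rw [hL] at h2
    rw [← h2, ← cast_orbSum, ← h1]
    push_cast
    ring
  have hA : ∀ x ∈ Φ.charpoly.roots, IsIntegral ℤ x := by
    refine Pool.Agent.W326.HS.EI.main E (p ^ s) μ hN hμ.pow_eq_one a Φ.charpoly.roots ((-1) ^ n) ?_ hS
    rcases Nat.even_or_odd n with h | h
    · left; exact h.neg_one_pow
    · right; exact h.neg_one_pow
  have hlift : ∀ M : Multiset E, (∀ x ∈ M, IsIntegral ℤ x) →
      ∃ M' : Multiset (integralClosure ℤ E).toSubring, M'.map Subtype.val = M := by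
    intro M hM
    have hM' : ∀ x ∈ M, x ∈ (integralClosure ℤ E).toSubring := hM
    refine ⟨M.pmap (fun x hx => (⟨x, hx⟩ : (integralClosure ℤ E).toSubring)) hM', ?_⟩
    rw [Multiset.map_pmap, Multiset.pmap_eq_map, Multiset.map_id']
  obtain ⟨A', hA'⟩ := hlift _ hA
  obtain ⟨B₁', hB₁'⟩ := hlift _ hB₁
  obtain ⟨B₂', hB₂'⟩ := hlift _ hB₂
  have hmap : ∀ (M : Multiset E) (M' : Multiset (integralClosure ℤ E).toSubring),
      M'.map Subtype.val = M → ∀ m : ℕ,
      ((do let a ← M'; pure (a : E) : Multiset E).map fun x => x ^ m).sum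
      = (M.map fun x => x ^ m).sum := by
    intro M M' h m
    rw [lift_eq, h]
  have hμO : ∃ h : μ ∈ (integralClosure ℤ E).toSubring, θ ⟨μ, h⟩ = 1 := by
    have h1 : IsIntegral ℤ μ := hμ.isIntegral hN
    refine ⟨h1, ?_⟩
    set y := θ ⟨μ, h1⟩ with hy
    have h2 : y ^ (p ^ s) = 1 := by
      rw [hy, ← map_pow]
      have : (⟨μ, h1⟩ : (integralClosure ℤ E).toSubring) ^ (p ^ s) = 1 := by
        apply Subtype.ext
        push_cast
        exact hμ.pow_eq_one
      rw [this, map_one]
    have : Fact p.Prime := ⟨hp⟩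
    have h3 : (y - 1) ^ (p ^ s) = 0 := by
      rw [sub_pow_char_pow, h2, one_pow, sub_self]
    exact sub_eq_zero.mp (pow_eq_zero_iff (hN.ne') |>.mp h3)
  refine ⟨A', B₁', B₂', hA', hB₁', hB₂', ?_, ?_⟩
  · intro hev
    have h := Pool.Agent.W111.HS.EC.main E (p ^ s) μ hN hμ.pow_eq_one a
      (integralClosure ℤ E).toSubring A' 0 B₁' B₂'
      (by
        intro m hm
        rw [hS m hm, hev.neg_one_pow, hmap _ _ hA' m]
        simp) (by
        intro m hm
        rw [hU' m hm, hmap _ _ hB₁' m, hmap _ _ hB₂' m]) k θ hμO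
    simpa using h
  · intro hodd
    have h := Pool.Agent.W111.HS.EC.main E (p ^ s) μ hN hμ.pow_eq_one a
      (integralClosure ℤ E).toSubring 0 A' B₁' B₂'
      (by
        intro m hm
        rw [hS m hm, hodd.neg_one_pow, hmap _ _ hA' m]
        simp) (by
        intro m hm
        rw [hU' m hm, hmap _ _ hB₁' m, hmap _ _ hB₂' m]) k θ hμO
    rw [mul_comm (A'.map fun x => 1 - C (θ x) * X).prod]
    simpa using h.symm

/-- a zero of the reduction -/
theorem root_of_prod {O k : Type} [CommRing O] [Field k] (θ : O →+* k) {A' : Multiset O}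
    {H : k[X]} (hdeg : H.natDegree = A'.card)
    (h : (A'.map fun x => 1 - C (θ x) * X).prod = H) {x : O} (hx : x ∈ A') :
    θ x ≠ 0 ∧ H.eval (θ x)⁻¹ = 0 := by
  classical
  obtain ⟨A'', hA''⟩ := Multiset.exists_cons_of_mem hx
  rw [hA'', Multiset.map_cons, Multiset.prod_cons] at h
  have h1 : θ x ≠ 0 := by
    intro h0
    rw [h0, C_0, zero_mul, sub_zero, one_mul] at h
    have h2 := natDegree_le_card A'' (fun y => θ y)
    rw [h, hdeg, hA'', Multiset.card_cons] at h2
    omega
  refine ⟨h1, ?_⟩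
  rw [← h, eval_mul, eval_sub, eval_one, eval_mul, eval_C, eval_X, mul_inv_cancel₀ h1, sub_self,
    zero_mul]

/-- The reductions of the eigenvalues of Frobenius on the part of a character of order `p ^ t`. -/
theorem eig_char {p s : ℕ} (hp : p.Prime)
    (κ : Type) [Field κ] [Fintype κ] {z : κ} (hz : IsPrimitiveRoot z (p ^ s)) {n : ℕ}
    (F : MvPolynomial (Fin (n + 1)) κ) {E : Type} [Field E] [CharZero E] [IsAlgClosed E]
    {ω : E} (hω1 : ω ≠ 1) (hω : ω ^ p ^ s = 1) (P₁ P₂ : ℤ[X]) (hP₁ : P₁.coeff 0 = 1)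
    (hP₂ : P₂.coeff 0 = 1) (B₁ B₂ : Multiset E)
    (hB₁ : P₁.map (Int.castRingHom E) = (B₁.map fun x => 1 - C x * X).prod)
    (hB₂ : P₂.map (Int.castRingHom E) = (B₂.map fun x => 1 - C x * X).prod)
    (hU : ∀ (L : Type) [Field L] [Fintype L] [Algebra κ L],
      (projOpen L (F.map (algebraMap κ L)) : E)
        = (B₁.map fun x => x ^ Module.finrank κ L).sum
          - (B₂.map fun x => x ^ Module.finrank κ L).sum)
    {W : Type} [AddCommGroup W] [Module E W] [FiniteDimensional E W] (Φ : Module.End E W)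
    (hΦ : ∀ (L : Type) [Field L] [Fintype L] [Algebra κ L],
      (-1) ^ n * LinearMap.trace E W (Φ ^ Module.finrank κ L)
        = projSum L E (p ^ s) (F.map (algebraMap κ L)) (algebraMap κ L z) ω)
    (H : (ZMod p)[X]) (hdim : H.natDegree = Module.finrank E W)
    (hev : Even n → H * P₂.map (Int.castRingHom (ZMod p)) = P₁.map (Int.castRingHom (ZMod p)))
    (hodd : Odd n → H * P₁.map (Int.castRingHom (ZMod p)) = P₂.map (Int.castRingHom (ZMod p)))
    (k : Type) [Field k] [CharP k p] (θ : (integralClosure ℤ E).toSubring →+* k)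
    {α : E} {w : W} (hw : w ≠ 0) (hα : Φ w = α • w) :
    ∃ x : (integralClosure ℤ E).toSubring, (x : E) = α ∧ θ x ≠ 0 ∧
      (H.map (ZMod.castHom (dvd_refl p) k)).eval (θ x)⁻¹ = 0 := by
  classical
  have hfact : Fact p.Prime := ⟨hp⟩
  obtain ⟨t, ht1, hts, hprim⟩ := exists_order hp hω1 hω
  have hN : 0 < p ^ s := pow_pos hp.pos s
  have hfac : p ^ s = p ^ (s - t) * p ^ t := by rw [← pow_add, Nat.sub_add_cancel hts]
  have hz' : IsPrimitiveRoot (z ^ p ^ (s - t)) (p ^ t) := hz.pow hN hfac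
  obtain ⟨A', B₁', B₂', hA', hB₁', hB₂', h1, h2⟩ := congr_of hp κ hz' F
    hprim B₁ B₂ (integral_of_poly hP₁ hB₁) (integral_of_poly hP₂ hB₂) hU Φ (by
      intro L _ _ _
      rw [hΦ L, projSum_reduce hp hts _ (hz.map_of_injective (algebraMap κ L).injective)
        hprim.pow_eq_one, map_pow]) k θ
  rw [red_prod hB₁ hB₁' θ, red_prod hB₂ hB₂' θ] at h1 h2
  let ι : ZMod p →+* k := ZMod.castHom (dvd_refl p) k
  have hι : ∀ P : ℤ[X], (P.map (Int.castRingHom (ZMod p))).map ι = P.map (Int.castRingHom k) := by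
    intro P
    rw [Polynomial.map_map]
    congr 1
    exact RingHom.ext_int _ _
  have hne : ∀ P : ℤ[X], P.coeff 0 = 1 → P.map (Int.castRingHom k) ≠ 0 := by
    intro P hP h
    have h3 := congrArg (fun Q => Polynomial.coeff Q 0) h
    simp only [coeff_map, hP, coeff_zero, map_one] at h3
    exact one_ne_zero h3
  have hprod : (A'.map fun x => 1 - C (θ x) * X).prod = H.map ι := by
    rcases Nat.even_or_odd n with hn | hn
    · have h3 := congrArg (Polynomial.map ι) (hev hn)
      rw [Polynomial.map_mul, hι, hι] at h3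
      exact mul_right_cancel₀ (hne P₂ hP₂) ((h1 hn).trans h3.symm)
    · have h3 := congrArg (Polynomial.map ι) (hodd hn)
      rw [Polynomial.map_mul, hι, hι] at h3
      exact mul_right_cancel₀ (hne P₁ hP₁) ((h2 hn).trans h3.symm)
  have hcard : Φ.charpoly.roots.card = Module.finrank E W := by
    rw [← (IsAlgClosed.splits Φ.charpoly).natDegree_eq_card_roots, LinearMap.charpoly_natDegree]
  have hmem : α ∈ Φ.charpoly.roots := by
    rw [mem_roots (LinearMap.charpoly_monic Φ).ne_zero, ← Module.End.hasEigenvalue_iff_isRoot_charpoly]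
    exact Module.End.hasEigenvalue_of_hasEigenvector
      (Module.End.hasEigenvector_iff.2 ⟨Module.End.mem_eigenspace_iff.2 hα, hw⟩)
  rw [← hA', Multiset.mem_map] at hmem
  obtain ⟨x, hx, hxα⟩ := hmem
  have hcA : A'.card = Module.finrank E W := by
    rw [← hcard, ← hA', Multiset.card_map]
  obtain ⟨h5, h6⟩ := root_of_prod θ (H := H.map ι) (by rw [natDegree_map, hdim, hcA]) hprod hx
  exact ⟨x, hxα, h5, h6⟩

end Pool.Agent.TH943.TP
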