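import Pool.Agent.TH943.TP.Op

/-!
Eigenvalues on the algebraic part; generators for a sum of two images.
-/

set_option autoImplicit false
set_option maxHeartbeats 1000000

open Finset Polynomial TensorProduct

namespace Pool.Agent.TH943.TP

/-- eigenvalues which are roots of unity times powers of `q`, up to roots of unity of `p`-power
order -/
theorem eig_linear' {p q : ℕ} (hp : p.Prime)
    (hq : ∀ (k : Type) [Field k] [CharP k p], ((q : ℕ) : k) = 1)
    {E L : Type} [Field E] [AddCommGroup L] [Module E L] (Ψ : Module.End E L) {M : ℕ}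
    (hM : 0 < M)
    (h : ∀ (β : E) (v : L), v ≠ 0 → Ψ v = β • v → ∃ (a t : ℕ) (ζ : E), ζ ^ (p ^ t * M) = 1 ∧
      β = (q : E) ^ a * ζ) (k : Type) [Field k] [CharP k p]
    (θ : (integralClosure ℤ E).toSubring →+* k) (β : E) (v : L) (hv : v ≠ 0)
    (hβ : Ψ v = β • v) : ∃ x : (integralClosure ℤ E).toSubring, (x : E) = β ∧ θ x ^ M = 1 := by
  obtain ⟨a, t, ζ, hζ, rfl⟩ := h β v hv hβ
  have hint : IsIntegral ℤ ζ := by
    refine IsIntegral.of_pow (Nat.mul_pos (pow_pos hp.pos t) hM) ?_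
    rw [hζ]
    exact isIntegral_one
  set y : (integralClosure ℤ E).toSubring := ⟨ζ, hint⟩ with hy
  refine ⟨(q : (integralClosure ℤ E).toSubring) ^ a * y, ?_, ?_⟩
  · push_cast
    rfl
  · have h1 : y ^ (p ^ t * M) = 1 := Subtype.ext (by push_cast; exact hζ)
    have h2 : (θ y ^ M) ^ p ^ t = 1 := by
      rw [← pow_mul, mul_comm, ← map_pow, h1, map_one]
    have : Fact p.Prime := ⟨hp⟩
    have h3 : (θ y ^ M - 1) ^ p ^ t = 0 := by
      rw [sub_pow_char_pow, h2, one_pow, sub_self]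
    rw [map_mul, map_pow, map_natCast, hq k, one_pow, one_mul]
    exact sub_eq_zero.1 (pow_eq_zero_iff (pow_pos hp.pos t).ne' |>.1 h3)

section two

variable {E L W H : Type} [Field E] [AddCommGroup L] [Module E L] [AddCommGroup W] [Module E W]
  [AddCommGroup H] [Module E H]

/-- eigenvectors in a sum of two images -/
def gs (Ψ : Module.End E L) (Φ : Module.End E W) (α : L →ₗ[E] H) (π : W →ₗ[E] H) :
    EV Ψ ⊕ EV Φ → H
  | .inl x => α x.1.2
  | .inr x => π x.1.2

theorem gs_val (Ψ : Module.End E L) (Φ : Module.End E W) (α : L →ₗ[E] H) (π : W →ₗ[E] H)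
    (F : Module.End E H) (hα : ∀ x, α (Ψ x) = F (α x)) (hπ : ∀ x, π (Φ x) = F (π x))
    (a : EV Ψ ⊕ EV Φ) : F (gs Ψ Φ α π a) = vl Ψ Φ a • gs Ψ Φ α π a := by
  rcases a with x | x
  · show F (α x.1.2) = x.1.1 • α x.1.2
    rw [← hα, x.2.2, map_smul]
  · show F (π x.1.2) = x.1.1 • π x.1.2
    rw [← hπ, x.2.2, map_smul]

theorem gs_span [IsAlgClosed E] [FiniteDimensional E L] [FiniteDimensional E W]
    (Ψ : Module.End E L) (Φ : Module.End E W) (hΨ : Ψ.IsSemisimple) (hΦ : Φ.IsSemisimple)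
    (α : L →ₗ[E] H) (π : W →ₗ[E] H) (hsum : LinearMap.range α ⊔ LinearMap.range π = ⊤) :
    Submodule.span E (Set.range (gs Ψ Φ α π)) = ⊤ := by
  rw [eq_top_iff, ← hsum]
  refine sup_le ?_ ?_
  · rw [LinearMap.range_eq_map, ← span_ev Ψ hΨ, Submodule.map_span]
    refine Submodule.span_mono ?_
    rintro _ ⟨_, ⟨x, rfl⟩, rfl⟩
    exact ⟨Sum.inl x, rfl⟩
  · rw [LinearMap.range_eq_map, ← span_ev Φ hΦ, Submodule.map_span]
    refine Submodule.span_mono ?_
    rintro _ ⟨_, ⟨x, rfl⟩, rfl⟩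
    exact ⟨Sum.inr x, rfl⟩

end two

end Pool.Agent.TH943.TP
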