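import Pool.Agent.TH943.TP.Prod
import Pool.Agent.TH943.TP.Gr

/-!
Products of an arbitrary variety with the coverings.
-/

set_option autoImplicit false
set_option maxHeartbeats 1000000

open Finset Polynomial TensorProduct

namespace Pool.Agent.TH943.TP

theorem maxGen_inf_span {E T A : Type*} [Field E] [AddCommGroup T] [Module E T]
    (F : Module.End E T) (g : A → T) (c : A → E) (hg : ∀ a, g a ∈ F.maxGenEigenspace (c a))
    (μ : E) : F.maxGenEigenspace μ ⊓ Submodule.span E (Set.range g) =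
      Submodule.span E (g '' {a | c a = μ}) := by
  set S : E → Submodule E T := fun ν => Submodule.span E (g '' {a | c a = ν}) with hS
  have h1 : ∀ ν, S ν ≤ F.maxGenEigenspace ν := by
    intro ν
    rw [hS]
    refine Submodule.span_le.2 ?_
    rintro _ ⟨a, ha, rfl⟩
    have ha' : c a = ν := ha
    rw [← ha']
    exact hg a
  have h2 : Submodule.span E (Set.range g) ≤ ⨆ ν, S ν := by
    refine Submodule.span_le.2 ?_
    rintro _ ⟨a, rfl⟩
    exact Submodule.mem_iSup_of_mem (c a) (Submodule.subset_span ⟨a, rfl, rfl⟩)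
  refine le_antisymm ?_ (le_inf (h1 μ) (Submodule.span_mono (Set.image_subset_range _ _)))
  intro x hx
  have h3 : x ∈ S μ ⊔ ⨆ (ν) (_ : ν ≠ μ), S ν := by
    rw [← iSup_split_single S μ]
    exact h2 hx.2
  obtain ⟨a, ha, b, hb, rfl⟩ := Submodule.mem_sup.1 h3
  have h4 : b ∈ ⨆ (ν) (_ : ν ≠ μ), F.maxGenEigenspace ν :=
    (iSup_mono fun ν => iSup_mono fun _ => h1 ν) hb
  have h5 : b ∈ F.maxGenEigenspace μ := by
    have := Submodule.sub_mem _ hx.1 (h1 μ ha)
    rwa [add_sub_cancel_left] at this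
  have h6 : b = 0 := by
    have := (Module.End.independent_maxGenEigenspace F μ).le_bot
      (Submodule.mem_inf.2 ⟨h5, h4⟩)
    exact (Submodule.mem_bot E).1 this
  rw [h6, add_zero]
  exact ha

theorem tmul_maxGen {E V T : Type} [Field E] [AddCommGroup V] [Module E V] [AddCommGroup T]
    [Module E T] (Φ : Module.End E V) (F : Module.End E T) {ν c : E} {z : V} {t : T}
    (hz : z ∈ Φ.maxGenEigenspace ν) (ht : F t = c • t) :
    z ⊗ₜ[E] t ∈ Module.End.maxGenEigenspace (TensorProduct.map Φ F : Module.End E (V ⊗[E] T))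
      (ν * c) := by
  obtain ⟨n, hn⟩ := (Module.End.mem_maxGenEigenspace Φ ν z).1 hz
  refine (Module.End.mem_maxGenEigenspace _ _ _).2 ⟨n, ?_⟩
  have key : ∀ (l : ℕ) (y : V), (((TensorProduct.map Φ F : Module.End E (V ⊗[E] T)) -
      (ν * c) • (1 : Module.End E (V ⊗[E] T))) ^ l) (y ⊗ₜ[E] t) =
      c ^ l • (((Φ - ν • (1 : Module.End E V)) ^ l) y ⊗ₜ[E] t) := by
    intro l
    induction l with
    | zero => intro y; rw [pow_zero, pow_zero, pow_zero, one_smul, Module.End.one_apply,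
        Module.End.one_apply]
    | succ l ih =>
      intro y
      rw [pow_succ, Module.End.mul_apply]
      have h1 : ((TensorProduct.map Φ F : Module.End E (V ⊗[E] T)) -
          (ν * c) • (1 : Module.End E (V ⊗[E] T))) (y ⊗ₜ[E] t) =
          c • (((Φ - ν • (1 : Module.End E V)) y) ⊗ₜ[E] t) := by
        rw [LinearMap.sub_apply, TensorProduct.map_tmul, ht, LinearMap.smul_apply,
          Module.End.one_apply, LinearMap.sub_apply, LinearMap.smul_apply, Module.End.one_apply,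
          TensorProduct.sub_tmul, TensorProduct.tmul_smul, smul_sub, ← TensorProduct.smul_tmul',
          smul_smul, mul_comm c ν]
      rw [h1, map_smul, ih, smul_smul, ← pow_succ', pow_succ (Φ - ν • (1 : Module.End E V)),
        Module.End.mul_apply]
  rw [key, hn, TensorProduct.zero_tmul, smul_zero]

/-- an eigenvalue of `Φ` from one of `Φ ^ r` -/
theorem eig_of_pow {E V : Type} [Field E] [IsAlgClosed E] [AddCommGroup V] [Module E V]
    [FiniteDimensional E V] (Φ : Module.End E V) (r : ℕ) {ν : E} {z : V} (hz0 : z ≠ 0)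
    (hz : z ∈ (Φ ^ r).maxGenEigenspace ν) : ∃ (β : E) (w : V), w ≠ 0 ∧ Φ w = β • w ∧ β ^ r = ν := by
  set S := (Φ ^ r).maxGenEigenspace ν with hS
  have hmap : ∀ v ∈ S, Φ v ∈ S :=
    fun v hv => Module.End.mapsTo_maxGenEigenspace_of_comm ((Commute.refl Φ).pow_left r) ν hv
  have hnt : Nontrivial S := ⟨⟨⟨z, hz⟩, 0, fun h0 => hz0 (congrArg Subtype.val h0)⟩⟩
  obtain ⟨β, hβ⟩ := Module.End.exists_eigenvalue (Φ.restrict hmap)
  obtain ⟨w, hw⟩ := hβ.exists_hasEigenvector
  have hΦw : Φ w.1 = β • w.1 := congrArg Subtype.val hw.apply_eq_smul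
  have hw0 : w.1 ≠ 0 := fun h0 => hw.2 (Subtype.ext h0)
  refine ⟨β, w.1, hw0, hΦw, ?_⟩
  have h12 : ∀ l : ℕ, (Φ ^ l) w.1 = β ^ l • w.1 := by
    intro l
    induction l with
    | zero => rw [pow_zero, pow_zero, one_smul, Module.End.one_apply]
    | succ l ih => rw [pow_succ', Module.End.mul_apply, ih, map_smul, hΦw, smul_smul, ← pow_succ]
  by_contra hne
  have h1 : w.1 ∈ (Φ ^ r).maxGenEigenspace (β ^ r) :=
    (Module.End.mem_maxGenEigenspace _ _ _).2 ⟨1, by
      rw [pow_one, LinearMap.sub_apply, LinearMap.smul_apply, Module.End.one_apply, h12, sub_self]⟩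
  have h2 := (Module.End.independent_maxGenEigenspace (Φ ^ r)).pairwiseDisjoint hne
  exact hw0 ((Submodule.mem_bot E).1 (h2.le_bot (Submodule.mem_inf.2 ⟨h1, w.2⟩)))

theorem map_gen {q : ℕ} {ι : Type} [Fintype ι] (N : ι → ℕ) {E : Type} [Field E]
    {W : ι → Type} [∀ i, AddCommGroup (W i)] [∀ i, Module E (W i)]
    (Φ : ∀ i, Module.End E (W i)) (r : ℕ) (a : ∀ i, Gen (N i) (Φ i)) :
      ((PiTensorProduct.map (fun i => tot q (N i) (Φ i)) :
        Module.End E (⨂[E] i, ((Fin (N i + 1) → E) × W i))) ^ r)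
        (⨂ₜ[E] i, gen (N i) (Φ i) (a i)) =
      ((∏ i, val q (N i) (Φ i) (a i)) ^ r) • (⨂ₜ[E] i, gen (N i) (Φ i) (a i)) := by
  induction r with
  | zero => rw [pow_zero, pow_zero, one_smul, Module.End.one_apply]
  | succ r ih =>
    rw [pow_succ', Module.End.mul_apply, ih, map_smul, PiTensorProduct.map_tprod]
    have h1 : (fun i => tot q (N i) (Φ i) (gen (N i) (Φ i) (a i))) =
        fun i => val q (N i) (Φ i) (a i) • gen (N i) (Φ i) (a i) :=
      funext fun i => tot_gen q (N i) (Φ i) (a i)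
    rw [h1, MultilinearMap.map_smul_univ, smul_smul, ← pow_succ]

theorem pow_eig {E T : Type} [Field E] [AddCommGroup T] [Module E T] (F : Module.End E T) {c : E}
    {t : T} (h : F t = c • t) (r : ℕ) : (F ^ r) t = c ^ r • t := by
  induction r with
  | zero => rw [pow_zero, pow_zero, one_smul, Module.End.one_apply]
  | succ l ih => rw [pow_succ', Module.End.mul_apply, ih, map_smul, h, smul_smul, ← pow_succ]

/-- products with an arbitrary space -/
theorem times_main {p : ℕ} (hp : p.Prime) {q : ℕ} (hq1 : 1 < q)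
    (hq : ∀ (k : Type) [Field k] [CharP k p], ((q : ℕ) : k) = 1)
    {ι : Type} [Fintype ι] [DecidableEq ι] (N K m : ι → ℕ)
    (hcop : ∀ i j, i ≠ j → Nat.Coprime (m i) (K j * m j)) {E : Type} [Field E] [CharZero E]
    [IsAlgClosed E] {W : ι → Type} [∀ i, AddCommGroup (W i)] [∀ i, Module E (W i)]
    (Φ : ∀ i, Module.End E (W i))
    (heig : ∀ i, ∀ (k : Type) [Field k] [CharP k p] (θ : (integralClosure ℤ E).toSubring →+* k)
        (α : E) (w : W i), w ≠ 0 → Φ i w = α • w → ∃ x : (integralClosure ℤ E).toSubring,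
          (x : E) = α ∧ θ x ^ (K i * m i) = 1 ∧ θ x ^ K i ≠ 1)
    {T : Type} [AddCommGroup T] [Module E T] (F : Module.End E T)
    (tt : (∀ i, Gen (N i) (Φ i)) → T)
    (htt : ∀ a, F (tt a) = (∏ i, val q (N i) (Φ i) (a i)) • tt a)
    (P : (∀ i, Gen (N i) (Φ i)) → Prop) {V : Type} [AddCommGroup V] [Module E V] [FiniteDimensional E V] (Ψ : Module.End E V) {e : ℕ}
    (hΨ : ∀ (k : Type) [Field k] [CharP k p] (θ : (integralClosure ℤ E).toSubring →+* k)
        (β : E) (w : V), w ≠ 0 → Ψ w = β • w → ∃ x : (integralClosure ℤ E).toSubring,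
          (x : E) = β ∧ θ x ^ e = 1)
    (he : ∀ i, Nat.Coprime (m i) e)
    {r : ℕ} (hr : ∀ i, Nat.Coprime (m i) r) (j : ℤ) :
    Module.End.maxGenEigenspace ((TensorProduct.map Ψ F : Module.End E (V ⊗[E] T)) ^ r)
        ((q : E) ^ ((r : ℤ) * j)) ⊓
        Submodule.span E {t | ∃ (z : V) (a : ∀ i, Gen (N i) (Φ i)), P a ∧ z ⊗ₜ[E] tt a = t} =
      Submodule.span E {t | ∃ (k : ∀ i, Fin (N i + 1)) (z : V), P (fun i => Sum.inl (k i)) ∧
        z ∈ (Ψ ^ r).maxGenEigenspace ((q : E) ^ ((r : ℤ) * (j - ∑ i, ((k i : ℕ) : ℤ)))) ∧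
        z ⊗ₜ[E] (tt fun i => Sum.inl (k i)) = t} := by
  classical
  have hq0 : (q : E) ≠ 0 := by
    have : q ≠ 0 := by omega
    exact_mod_cast this
  have hF : ((TensorProduct.map Ψ F : Module.End E (V ⊗[E] T)) ^ r) =
      TensorProduct.map (Ψ ^ r) (F ^ r) := by
    rw [TensorProduct.map_pow]
  have hspanV : Submodule.span E (Set.range fun z : {y : E × V // y.2 ≠ 0 ∧
      y.2 ∈ (Ψ ^ r).maxGenEigenspace y.1} => z.1.2) = ⊤ := by
    rw [eq_top_iff, ← Module.End.iSup_maxGenEigenspace_eq_top (Ψ ^ r)]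
    refine iSup_le fun ν => ?_
    intro z hz
    by_cases hz0 : z = 0
    · rw [hz0]
      exact Submodule.zero_mem _
    · exact Submodule.subset_span ⟨⟨(ν, z), hz0, hz⟩, rfl⟩
  have hspan : Submodule.span E {t | ∃ (z : V) (a : ∀ i, Gen (N i) (Φ i)),
      P a ∧ z ⊗ₜ[E] tt a = t} =
      Submodule.span E (Set.range fun ab : {y : E × V // y.2 ≠ 0 ∧
        y.2 ∈ (Ψ ^ r).maxGenEigenspace y.1} × {a : ∀ i, Gen (N i) (Φ i) // P a} =>
        ab.1.1.2 ⊗ₜ[E] (tt ab.2.1)) := by
    refine le_antisymm (Submodule.span_le.2 ?_) (Submodule.span_mono ?_)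
    · rintro _ ⟨z, a, ha, rfl⟩
      have h1 : z ∈ Submodule.span E (Set.range fun z : {y : E × V // y.2 ≠ 0 ∧
          y.2 ∈ (Ψ ^ r).maxGenEigenspace y.1} => z.1.2) := by
        rw [hspanV]
        exact Submodule.mem_top
      have h2 := Submodule.mem_map_of_mem (f := (TensorProduct.mk E V T).flip (tt a)) h1
      rw [Submodule.map_span] at h2
      refine Submodule.span_mono ?_ h2
      rintro _ ⟨_, ⟨y, rfl⟩, rfl⟩
      exact ⟨(y, ⟨a, ha⟩), rfl⟩
    · rintro _ ⟨ab, rfl⟩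
      exact ⟨ab.1.1.2, ab.2.1, ab.2.2, rfl⟩
  rw [hF, hspan, maxGen_inf_span _ (fun ab : {y : E × V // y.2 ≠ 0 ∧
      y.2 ∈ (Ψ ^ r).maxGenEigenspace y.1} × {a : ∀ i, Gen (N i) (Φ i) // P a} =>
      ab.1.1.2 ⊗ₜ[E] (tt ab.2.1))
    (fun ab => ab.1.1.1 * (∏ i, val q (N i) (Φ i) (ab.2.1 i)) ^ r)
    (fun ab => tmul_maxGen _ _ ab.1.2.2 (pow_eig F (htt ab.2.1) r))]
  have hpow : ∀ (k : ∀ i, Fin (N i + 1)),
      (∏ i, val q (N i) (Φ i) (Sum.inl (k i))) ^ r =
        (q : E) ^ ((r : ℤ) * ∑ i, ((k i : ℕ) : ℤ)) := by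
    intro k
    have h1 : (∏ i, val q (N i) (Φ i) (Sum.inl (k i))) = ∏ i, (q : E) ^ (k i : ℕ) := rfl
    rw [h1, Finset.prod_pow_eq_pow_sum, ← pow_mul, ← zpow_natCast]
    congr 1
    push_cast
    ring
  have hdiv : ∀ (k : ∀ i, Fin (N i + 1)) (ν : E),
      ν * (∏ i, val q (N i) (Φ i) (Sum.inl (k i))) ^ r = (q : E) ^ ((r : ℤ) * j) ↔
        ν = (q : E) ^ ((r : ℤ) * (j - ∑ i, ((k i : ℕ) : ℤ))) := by
    intro k ν
    rw [hpow k, mul_sub, zpow_sub₀ hq0, eq_div_iff (zpow_ne_zero _ hq0)]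
  refine le_antisymm (Submodule.span_mono ?_) (Submodule.span_le.2 ?_)
  · rintro _ ⟨⟨⟨⟨ν, z⟩, hz0, hz⟩, a, hPa⟩, ha, rfl⟩
    have ha' : ν * (∏ i, val q (N i) (Φ i) (a i)) ^ r = (q : E) ^ ((r : ℤ) * j) := ha
    obtain ⟨β, w, hw0, hβ, hβr⟩ := eig_of_pow Ψ r hz0 hz
    obtain ⟨k, _, _, ⟨θ⟩⟩ := Pool.Agent.W804.HS.RD.main E p hp
    have hx : ∀ i, ∃ x : (integralClosure ℤ E).toSubring, (x : E) = val q (N i) (Φ i) (a i) ∧
        θ x ^ (K i * m i) = 1 ∧ (∀ y, a i = Sum.inr y → θ x ^ K i ≠ 1) := by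
      intro i
      rcases h : a i with l | y
      · refine ⟨(q : (integralClosure ℤ E).toSubring) ^ (l : ℕ), ?_, ?_, ?_⟩
        · push_cast
          rfl
        · rw [map_pow, map_natCast, hq k, one_pow, one_pow]
        · intro y hy
          exact absurd hy (by simp)
      · obtain ⟨x, hx1, hx2, hx3⟩ := heig i k θ y.1.1 y.1.2 y.2.1 y.2.2
        exact ⟨x, hx1, hx2, fun _ _ => hx3⟩
    choose x hx1 hx2 hx3 using hx
    obtain ⟨y, hy1, hy2⟩ := hΨ k θ β w hw0 hβ
    -- a relation between algebraic integers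
    obtain ⟨c, d, hcd⟩ : ∃ c d : ℕ, (r : ℤ) * j = (c : ℤ) - (d : ℤ) :=
      ⟨((r : ℤ) * j).toNat, (-((r : ℤ) * j)).toNat, by omega⟩
    have h1 : y ^ r * (∏ i, x i) ^ r * (q : (integralClosure ℤ E).toSubring) ^ d =
        (q : (integralClosure ℤ E).toSubring) ^ c := by
      apply Subtype.ext
      push_cast
      rw [hcd, zpow_sub₀ hq0, eq_div_iff (zpow_ne_zero _ hq0), zpow_natCast, zpow_natCast] at ha'
      rw [← ha', hy1, hβr]
      congr 2
      congr 1
      exact Finset.prod_congr rfl fun i _ => hx1 i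
    have h2 : θ y ^ r * (∏ i, θ (x i)) ^ r = 1 := by
      have h3 := congrArg θ h1
      rw [map_mul, map_mul, map_pow, map_pow, map_prod, map_pow, map_pow, map_natCast, hq k,
        one_pow, one_pow, mul_one] at h3
      exact h3
    have h3 := order_dvd (ι := Option ι) (fun o => o.elim (θ y) fun i => θ (x i))
      (fun o => o.elim e K) (fun o => o.elim 1 m)
      (by
        rintro (_ | i)
        · show θ y ^ (e * 1) = 1
          rw [mul_one]
          exact hy2
        · exact hx2 i)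
      (by
        rintro (_ | i) (_ | l) hil
        · exact absurd rfl hil
        · exact Nat.coprime_one_left _
        · show Nat.Coprime (m i) (e * 1)
          rw [mul_one]
          exact he i
        · exact hcop i l fun h => hil (congrArg some h))
      (r := r)
      (by
        rintro (_ | i)
        · exact Nat.coprime_one_left _
        · exact hr i)
      (by
        rw [Fintype.prod_option, mul_pow]
        exact h2)
    have h4 : ∀ i, ∃ l, a i = Sum.inl l := by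
      intro i
      rcases h : a i with l | y
      · exact ⟨l, rfl⟩
      · exact absurd (h3 (some i)) (hx3 i y h)
    choose l hl using h4
    obtain rfl : a = fun i => Sum.inl (l i) := funext hl
    refine ⟨l, z, hPa, ?_, rfl⟩
    rw [← (hdiv l ν).1 ha']
    exact hz
  · rintro _ ⟨l, z, hPl, hz, rfl⟩
    by_cases hz0 : z = 0
    · rw [hz0, TensorProduct.zero_tmul]
      exact Submodule.zero_mem _
    · exact Submodule.subset_span ⟨(⟨(_, z), hz0, hz⟩, ⟨fun i => Sum.inl (l i), hPl⟩),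
        (hdiv l _).2 rfl, rfl⟩

/-- the coefficient of a linear section -/
noncomputable def ev {E : Type} [Field E] {ι : Type} [Fintype ι] (N : ι → ℕ)
    (W : ι → Type) [∀ i, AddCommGroup (W i)] [∀ i, Module E (W i)] (k : ∀ i, Fin (N i + 1)) :
    (⨂[E] i, ((Fin (N i + 1) → E) × W i)) →ₗ[E] E :=
  PiTensorProduct.lift ((MultilinearMap.mkPiAlgebra E ι E).compLinearMap fun i =>
    (LinearMap.proj (k i)) ∘ₗ (LinearMap.fst E (Fin (N i + 1) → E) (W i)))

theorem ev_one {E : Type} [Field E] {ι : Type} [Fintype ι] (N : ι → ℕ)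
    (W : ι → Type) [∀ i, AddCommGroup (W i)] [∀ i, Module E (W i)] (k : ∀ i, Fin (N i + 1)) :
    ev N W k (⨂ₜ[E] i, ((Pi.single (k i) 1, 0) : (Fin (N i + 1) → E) × W i)) = 1 := by
  unfold ev
  rw [PiTensorProduct.lift.tprod, MultilinearMap.compLinearMap_apply,
    MultilinearMap.mkPiAlgebra_apply]
  refine Finset.prod_eq_one fun i _ => ?_
  show (Pi.single (k i) (1 : E) : Fin (N i + 1) → E) (k i) = 1
  rw [Pi.single_eq_same]

/-- the action on the product with a linear section -/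
theorem times_lin {q : ℕ} {ι : Type} [Fintype ι] (N : ι → ℕ) {E : Type} [Field E]
    {W : ι → Type} [∀ i, AddCommGroup (W i)] [∀ i, Module E (W i)]
    (Φ : ∀ i, Module.End E (W i)) {T : Type} [AddCommGroup T] [Module E T] (F : Module.End E T)
    (tt : (∀ i, Gen (N i) (Φ i)) → T)
    (htt : ∀ a, F (tt a) = (∏ i, val q (N i) (Φ i) (a i)) • tt a)
    {V : Type} [AddCommGroup V] [Module E V] (Ψ : Module.End E V) (r : ℕ) (z : V)
    (k : ∀ i, Fin (N i + 1)) :
    ((TensorProduct.map Ψ F : Module.End E (V ⊗[E] T)) ^ r)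
      (z ⊗ₜ[E] tt fun i => Sum.inl (k i)) =
      (q : E) ^ (r * ∑ i, (k i : ℕ)) • ((Ψ ^ r) z ⊗ₜ[E] tt fun i => Sum.inl (k i)) := by
  rw [TensorProduct.map_pow, TensorProduct.map_tmul, pow_eig F (htt _) r,
    TensorProduct.tmul_smul]
  congr 1
  have h1 : (∏ i, val q (N i) (Φ i) (Sum.inl (k i))) = ∏ i, (q : E) ^ (k i : ℕ) := rfl
  rw [h1, Finset.prod_pow_eq_pow_sum, ← pow_mul, mul_comm]

theorem tmul_cancel {E T V : Type} [Field E] [AddCommGroup T] [Module E T] [AddCommGroup V]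
    [Module E V] (f : T →ₗ[E] E) {t : T} (hf : f t = 1) {u v : V} (h : u ⊗ₜ[E] t = v ⊗ₜ[E] t) :
    u = v := by
  have h3 := congrArg (fun t => TensorProduct.rid E V (LinearMap.lTensor V f t)) h
  simpa only [LinearMap.lTensor_tmul, TensorProduct.rid_tmul, hf, one_smul] using h3

/-- generators in a given degree -/
theorem mem_span_gen {E W : Type} [Field E] [IsAlgClosed E] [AddCommGroup W] [Module E W]
    [FiniteDimensional E W] (N : ℕ) (Φ : Module.End E W) (h : Φ.IsSemisimple) (w : W) :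
    ((0, w) : (Fin (N + 1) → E) × W) ∈ Submodule.span E {y | ∃ x : {x : E × W // x.2 ≠ 0 ∧
      Φ x.2 = x.1 • x.2}, gen N Φ (Sum.inr x) = y} := by
  have h2 : (⊤ : Submodule E W) ≤ (Submodule.span E {y | ∃ x : {x : E × W // x.2 ≠ 0 ∧
      Φ x.2 = x.1 • x.2}, gen N Φ (Sum.inr x) = y}).comap
        (LinearMap.inr E (Fin (N + 1) → E) W) := by
    rw [← h.iSup_eigenspace_eq_top]
    refine iSup_le fun μ => ?_
    intro v hv
    rw [Submodule.mem_comap]
    by_cases hv0 : v = 0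
    · rw [hv0, map_zero]
      exact Submodule.zero_mem _
    · exact Submodule.subset_span ⟨⟨(μ, v), hv0, Module.End.mem_eigenspace_iff.1 hv⟩, rfl⟩
  exact h2 (Submodule.mem_top (x := w))

end Pool.Agent.TH943.TP
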